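import Pool.Agent.Lib.MP_4a3daa_an.H90.Norm

namespace Pool.MP4a3daa

open Finset

/-- an incidence count for two chains -/
lemma incidence (D B : Finset ℕ) (R : ℕ → ℕ → Prop) [∀ t, DecidablePred (R t)]
    (hR : ∀ t ∈ D, ∀ t' ∈ D, t < t' → ∀ b ∈ B, ∀ b' ∈ B, R t b → R t' b' → b ≤ b') :
    ∑ t ∈ D, (B.filter (R t)).card ≤ D.card + B.card := by
  classical
  let Bt : ℕ → Finset ℕ := fun t => B.filter (R t)
  let Bl : ℕ → Finset ℕ := fun t => (Bt t).filter (fun b => ∃ b' ∈ Bt t, b' < b)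
  have h1 : ∀ t ∈ D, (B.filter (R t)).card ≤ 1 + (Bl t).card := by
    intro t _
    have hsplit := card_filter_add_card_filter_not (s := Bt t) (fun b => ∃ b' ∈ Bt t, b' < b)
    have hone : ((Bt t).filter (fun b => ¬ ∃ b' ∈ Bt t, b' < b)).card ≤ 1 := by
      rw [card_le_one]
      intro a ha b hb
      obtain ⟨ha1, ha2⟩ := mem_filter.1 ha
      obtain ⟨hb1, hb2⟩ := mem_filter.1 hb
      rcases lt_trichotomy a b with hl | hl | hl
      · exact absurd ⟨a, ha1, hl⟩ hb2
      · exact hl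
      · exact absurd ⟨b, hb1, hl⟩ ha2
    have h3 : (B.filter (R t)).card = (Bt t).card := rfl
    have h4 : (Bl t).card + ((Bt t).filter (fun b => ¬ ∃ b' ∈ Bt t, b' < b)).card =
        (Bt t).card := by
      simp only [Bl]
      convert hsplit
    omega
  refine le_trans (sum_le_sum h1) ?_
  rw [sum_add_distrib, sum_const, smul_eq_mul, mul_one]
  refine Nat.add_le_add_left ?_ _
  rw [← card_biUnion]
  · refine card_le_card ?_
    intro b hb
    obtain ⟨t, _, hbt⟩ := mem_biUnion.1 hb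
    exact (mem_filter.1 (mem_filter.1 hbt).1).1
  · have key : ∀ t ∈ D, ∀ t' ∈ D, t < t' → Disjoint (Bl t) (Bl t') := by
      intro t ht t' ht' hlt
      rw [Finset.disjoint_left]
      intro b hb hb'
      obtain ⟨hb1, _⟩ := mem_filter.1 hb
      obtain ⟨_, c, hc, hcb⟩ := mem_filter.1 hb'
      have := hR t ht t' ht' hlt b (mem_filter.1 hb1).1 c (mem_filter.1 hc).1
        (mem_filter.1 hb1).2 (mem_filter.1 hc).2
      exact absurd hcb (not_lt.2 this)
    intro t ht t' ht' htt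
    rcases lt_or_gt_of_ne htt with hlt | hlt
    · exact key t ht t' ht' hlt
    · exact (key t' ht' t ht hlt).symm

/-- The smallness property of `z` with respect to admissible families whose minima are covered
by `s` sets of `𝒮_k`. -/
def PP (N : C00 → ℝ) (n k : ℕ) (z : C00) (A κ : ℝ) : Prop :=
  ∀ (I : Finset ℕ) (E : ℕ → Finset ℕ+), Fam I E → Adm n I E → ∀ J : ℕ, 1 ≤ J →
    (∀ j ∈ I, J ≤ j) → ∀ s : ℕ, Cov k s I (mnE E) →
    ∑ j ∈ I, avgN N j (res (E j) z) ≤ A * (1 / (J : ℝ) + κ * s)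

section

variable {n : ℕ} {N : C00 → ℝ} (h : IsImplicitNorm n N)

include h

open Classical in
lemma av_blocks_le {r : ℕ} {X : ℕ → C00} {A : ℝ} (hA0 : 0 ≤ A) (hA : ∀ b < r, N (X b) ≤ A)
    (hsep : ∀ a < r, ∀ b < r, a < b → ∀ k, X a k ≠ 0 → ∀ k', X b k' ≠ 0 → k < k')
    (E : Finset ℕ+) {j : ℕ} (hj : 1 ≤ j) :
    avgN N j (res E (∑ b ∈ range r, X b)) ≤
      A * (1 + ((range r).filter (fun b => ∃ k ∈ E, X b k ≠ 0)).card / (j : ℝ)) := by
  set BE : Finset ℕ := (range r).filter (fun b => ∃ k ∈ E, X b k ≠ 0) with hBE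
  have hj0 : (0 : ℝ) < j := by exact_mod_cast hj
  refine av_le fun D F hD hS => ?_
  let R : ℕ → ℕ → Prop := fun t b => ∃ k ∈ F t ∩ E, X b k ≠ 0
  have hinc := incidence D BE R (by
    intro t ht t' ht' htt b hb b' hb' h1 h2
    obtain ⟨k, hk, hbk⟩ := h1
    obtain ⟨k', hk', hbk'⟩ := h2
    have hkk : k < k' := hS t ht t' ht' htt k (mem_inter.1 hk).1 k' (mem_inter.1 hk').1
    by_contra hcon
    have hlt : b' < b := not_le.1 hcon
    exact absurd (hsep b' (mem_range.1 (mem_filter.1 hb').1) b (mem_range.1 (mem_filter.1 hb).1)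
      hlt k' hbk' k hbk) (not_lt.2 hkk.le))
  have e1 : ∀ t ∈ D, N (res (F t) (res E (∑ b ∈ range r, X b))) ≤
      A * ((BE.filter (R t)).card : ℝ) := by
    intro t _
    rw [res_res, res_sum]
    have : ∑ b ∈ range r, res (F t ∩ E) (X b) = ∑ b ∈ BE.filter (R t), res (F t ∩ E) (X b) := by
      symm
      refine sum_subset (fun b hb => (mem_filter.1 (mem_filter.1 hb).1).1) ?_
      intro b hb hb'
      refine res_eq_zero fun k hk => ?_
      by_contra hne
      exact hb' (mem_filter.2 ⟨mem_filter.2 ⟨hb, k, (mem_inter.1 hk).2, hne⟩, k, hk, hne⟩)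
    rw [this]
    refine le_trans (N_sum_le h _ _) ?_
    refine le_trans (sum_le_sum (g := fun _ => A) ?_) ?_
    · intro b hb
      exact (N_res_le h _ _).trans (hA b (mem_range.1 (mem_filter.1 (mem_filter.1 hb).1).1))
    · rw [sum_const, nsmul_eq_mul, mul_comm]
  have e2 : ∑ t ∈ D, N (res (F t) (res E (∑ b ∈ range r, X b))) ≤ A * (j + BE.card) := by
    refine le_trans (sum_le_sum e1) ?_
    rw [← mul_sum]
    refine mul_le_mul_of_nonneg_left ?_ hA0
    have h1 : ((∑ t ∈ D, (BE.filter (R t)).card : ℕ) : ℝ) ≤ ((D.card + BE.card : ℕ) : ℝ) := by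
      exact_mod_cast hinc
    push_cast at h1
    have h2 : (D.card : ℝ) ≤ j := by exact_mod_cast hD
    linarith
  rw [one_div, inv_mul_le_iff₀ hj0]
  refine le_trans e2 (le_of_eq ?_)
  field_simp

/-- Averages of blocks, level one. -/
lemma PP_zero {r : ℕ} (hr : 1 ≤ r) {X : ℕ → C00} {A κ : ℝ} (hA0 : 0 ≤ A)
    (hA : ∀ b < r, N (X b) ≤ A)
    (hsep : ∀ a < r, ∀ b < r, a < b → ∀ k, X a k ≠ 0 → ∀ k', X b k' ≠ 0 → k < k')
    (hκ : 2 / (r : ℝ) ≤ κ) :
    PP N n 0 (∑ b ∈ range r, (1 / (r : ℝ)) • X b) A κ := by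
  classical
  intro I E hF _ J hJ hIJ s hcov
  have hr0 : (0 : ℝ) < r := by exact_mod_cast hr
  have hJ0 : (0 : ℝ) < J := by exact_mod_cast hJ
  have hIs : I.card ≤ s := hcov.card_le hF.strictMono
  set X' : ℕ → C00 := fun b => (1 / (r : ℝ)) • X b with hX'
  have hX'ne : ∀ b k, X' b k ≠ 0 → X b k ≠ 0 := by
    intro b k hk h0
    apply hk
    rw [hX']; simp [h0]
  have hA' : ∀ b < r, N (X' b) ≤ A / r := by
    intro b hb
    rw [hX']
    simp only
    rw [N_smul_nonneg h (by positivity), one_div, div_eq_inv_mul]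
    exact mul_le_mul_of_nonneg_left (hA b hb) (by positivity)
  let Bj : ℕ → Finset ℕ := fun j => (range r).filter (fun b => ∃ k ∈ E j, X' b k ≠ 0)
  have e1 : ∀ j ∈ I, avgN N j (res (E j) (∑ b ∈ range r, X' b)) ≤
      A / r * (1 + (Bj j).card / (J : ℝ)) := by
    intro j hj
    have hj1 : 1 ≤ j := le_trans (by norm_num) (hF.two j hj)
    have hj0 : (0 : ℝ) < j := by exact_mod_cast hj1
    refine le_trans (av_blocks_le h (by positivity) hA' (fun a ha b hb hab k hk k' hk' =>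
      hsep a ha b hb hab k (hX'ne a k hk) k' (hX'ne b k' hk')) (E j) hj1) ?_
    refine mul_le_mul_of_nonneg_left ?_ (by positivity)
    have : ((Bj j).card : ℝ) / j ≤ (Bj j).card / J :=
      div_le_div_of_nonneg_left (by positivity) hJ0 (by exact_mod_cast hIJ j hj)
    simpa using this
  have hinc := incidence I (range r) (fun j b => ∃ k ∈ E j, X' b k ≠ 0) (by
    intro j hj j' hj' hjj b hb b' hb' h1 h2
    obtain ⟨k, hk, hbk⟩ := h1
    obtain ⟨k', hk', hbk'⟩ := h2
    have hkk : k < k' := hF.bef j hj j' hj' hjj k hk k' hk'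
    by_contra hcon
    exact absurd (hsep b' (mem_range.1 hb') b (mem_range.1 hb) (not_le.1 hcon) k'
      (hX'ne _ _ hbk') k (hX'ne _ _ hbk)) (not_lt.2 hkk.le))
  rw [card_range] at hinc
  have hinc' : ∑ j ∈ I, ((Bj j).card : ℝ) ≤ I.card + r := by exact_mod_cast hinc
  refine le_trans (sum_le_sum e1) ?_
  rw [← mul_sum, sum_add_distrib, sum_const, nsmul_eq_mul, mul_one, ← sum_div]
  have hIs' : (I.card : ℝ) ≤ s := by exact_mod_cast hIs
  have hs0 : (0 : ℝ) ≤ s := by positivity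
  have h1 : (∑ j ∈ I, ((Bj j).card : ℝ)) / J ≤ s + r / J := by
    rw [div_le_iff₀ hJ0]
    have hJ1 : (1 : ℝ) ≤ J := by exact_mod_cast hJ
    have : (s + r / J) * J = s * J + (r : ℝ) := by field_simp
    rw [this]
    nlinarith
  have h2 : A / r * ((I.card : ℝ) + (∑ j ∈ I, ((Bj j).card : ℝ)) / J) ≤
      A / r * (2 * s + r / J) := by
    refine mul_le_mul_of_nonneg_left ?_ (by positivity)
    linarith
  refine le_trans h2 ?_
  have h3 : A / r * (2 * s + r / J) = A * (1 / J + 2 / r * s) := by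
    field_simp
    ring
  rw [h3]
  refine mul_le_mul_of_nonneg_left ?_ hA0
  have := mul_le_mul_of_nonneg_right hκ hs0
  linarith

omit h in
lemma Cov.combine {k s t : ℕ} {I : Finset ℕ} {φ : ℕ → ℕ+} {χ : ℕ → ℕ}
    (hU : (I.image χ).card ≤ s)
    (hC : ∀ u ∈ I.image χ, Cov k t (I.filter (fun i => χ i = u)) φ) : Cov k (s * t) I φ := by
  classical
  let ρ : ℕ → ℕ → ℕ := fun u => if hu : u ∈ I.image χ then (hC u hu).choose else fun _ => 0
  have hρ : ∀ u ∈ I.image χ, ((I.filter (fun i => χ i = u)).image (ρ u)).card ≤ t ∧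
      ∀ w ∈ (I.filter (fun i => χ i = u)).image (ρ u),
        Sch k (((I.filter (fun i => χ i = u)).filter (fun i => ρ u i = w)).image φ) := by
    intro u hu
    have : ρ u = (hC u hu).choose := by simp only [ρ]; rw [dif_pos hu]
    rw [this]
    exact (hC u hu).choose_spec
  refine ⟨fun i => Nat.pair (χ i) (ρ (χ i) i), ?_, ?_⟩
  · have hsub : I.image (fun i => Nat.pair (χ i) (ρ (χ i) i)) ⊆
        (I.image χ).biUnion (fun u =>
          ((I.filter (fun i => χ i = u)).image (ρ u)).image (Nat.pair u)) := by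
      intro w hw
      obtain ⟨i, hi, rfl⟩ := mem_image.1 hw
      refine mem_biUnion.2 ⟨χ i, mem_image_of_mem _ hi, ?_⟩
      exact mem_image_of_mem _ (mem_image_of_mem _ (mem_filter.2 ⟨hi, rfl⟩))
    refine le_trans (card_le_card hsub) (le_trans card_biUnion_le ?_)
    refine le_trans (sum_le_sum (g := fun _ => t) ?_) ?_
    · intro u hu
      exact le_trans card_image_le (hρ u hu).1
    · rw [sum_const, smul_eq_mul]
      exact Nat.mul_le_mul_right t hU
  · intro w hw
    obtain ⟨i0, hi0, rfl⟩ := mem_image.1 hw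
    have hu : χ i0 ∈ I.image χ := mem_image_of_mem _ hi0
    have := (hρ (χ i0) hu).2 (ρ (χ i0) i0) (mem_image_of_mem _ (mem_filter.2 ⟨hi0, rfl⟩))
    have heq : I.filter (fun i => Nat.pair (χ i) (ρ (χ i) i) = Nat.pair (χ i0) (ρ (χ i0) i0)) =
        (I.filter (fun i => χ i = χ i0)).filter (fun i => ρ (χ i0) i = ρ (χ i0) i0) := by
      ext i
      simp only [mem_filter, Nat.pair_eq_pair]
      constructor
      · rintro ⟨hi, h1, h2⟩
        exact ⟨⟨hi, h1⟩, by rw [← h1]; rw [← h1] at h2; exact h2⟩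
      · rintro ⟨⟨hi, h1⟩, h2⟩
        exact ⟨hi, h1, by rw [h1]; exact h2⟩
    simp only
    rw [heq]
    exact this

/-- Averages of blocks, higher levels. -/
lemma PP_succ {k r : ℕ} (hr : 1 ≤ r) {Z : ℕ → C00} {y : ℕ → ℕ} {κ : ℕ → ℝ} {A κ' : ℝ}
    (hA0 : 0 ≤ A) (hA : ∀ i < r, N (Z i) ≤ A)
    (hy : ∀ i < r, ∀ k, Z i k ≠ 0 → (k : ℕ) ≤ y i) (hymono : Monotone y)
    (hPP : ∀ i < r, PP N n k (Z i) A (κ i)) (hκ : ∀ i < r, 1 ≤ i → κ i * y (i - 1) ≤ 1 / r)
    (hκ' : 2 / (r : ℝ) ≤ κ') :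
    PP N n (k + 1) (∑ i ∈ range r, (1 / (r : ℝ)) • Z i) A κ' := by
  classical
  intro I E hF hAdm J hJ hIJ s hcov
  have hr0 : (0 : ℝ) < r := by exact_mod_cast hr
  have hJ0 : (0 : ℝ) < J := by exact_mod_cast hJ
  have hs0 : (0 : ℝ) ≤ s := by positivity
  obtain ⟨χ, hχ1, hχ2⟩ := hcov
  let Ii : ℕ → Finset ℕ := fun i => I.filter (fun j => (E j ∩ (Z i).support).Nonempty)
  let Bad : Finset ℕ := (range r).filter
    (fun i => ∃ j ∈ Ii i, ∀ i' < i, ∀ j' ∈ Ii i', χ j' ≠ χ j)
  have hBad : Bad.card ≤ s := by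
    let g : ℕ → ℕ := fun i => if hi : ∃ j ∈ Ii i, ∀ i' < i, ∀ j' ∈ Ii i', χ j' ≠ χ j then
      χ hi.choose else 0
    have hg : ∀ i ∈ Bad, ∃ j ∈ Ii i, g i = χ j ∧ ∀ i' < i, ∀ j' ∈ Ii i', χ j' ≠ χ j := by
      intro i hi
      have hi' := (mem_filter.1 hi).2
      refine ⟨hi'.choose, hi'.choose_spec.1, ?_, hi'.choose_spec.2⟩
      simp only [g]; rw [dif_pos hi']
    have hinj : Set.InjOn g (Bad : Set ℕ) := by
      intro i hi i' hi' hgg
      obtain ⟨j, hj, hgj, hjj⟩ := hg i hi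
      obtain ⟨j', hj', hgj', hjj'⟩ := hg i' hi'
      rcases lt_trichotomy i i' with hl | hl | hl
      · exact absurd (by rw [← hgj, hgg, hgj']) (hjj' i hl j hj)
      · exact hl
      · exact absurd (by rw [← hgj', ← hgg, hgj]) (hjj i' hl j' hj')
    rw [← card_image_of_injOn hinj]
    refine le_trans (card_le_card ?_) hχ1
    intro u hu
    obtain ⟨i, hi, rfl⟩ := mem_image.1 hu
    obtain ⟨j, hj, hgj, _⟩ := hg i hi
    rw [hgj]
    exact mem_image_of_mem _ (mem_filter.1 hj).1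
  have hlow : ∀ i, ∑ j ∈ I, avgN N j (res (E j) (Z i)) ≤ N (Z i) := fun i => lower h hF hAdm _
  have hgood : ∀ i ∈ range r, i ∉ Bad → ∑ j ∈ I, avgN N j (res (E j) (Z i)) ≤
      A * (1 / J + s * (1 / r)) := by
    intro i hi hib
    have hir := mem_range.1 hi
    have hnb : ∀ j ∈ Ii i, ∃ i' < i, ∃ j' ∈ Ii i', χ j' = χ j := by
      intro j hj
      by_contra hcon
      push Not at hcon
      exact hib (mem_filter.2 ⟨hi, j, hj, hcon⟩)
    have hres : ∀ j, res (E j) (Z i) = res (E j ∩ (Z i).support) (Z i) := by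
      intro j
      refine res_congr fun k hk => ?_
      rw [mem_inter]
      exact ⟨fun h1 => ⟨h1, Finsupp.mem_support_iff.2 hk⟩, fun h1 => h1.1⟩
    have hsum : ∑ j ∈ I, avgN N j (res (E j) (Z i)) =
        ∑ j ∈ Ii i, avgN N j (res (E j ∩ (Z i).support) (Z i)) := by
      rw [sum_filter]
      refine sum_congr rfl fun j _ => ?_
      rw [hres j]
      split_ifs with hne
      · rfl
      · rw [not_nonempty_iff_eq_empty.1 hne, res_empty, av_zero h]
    rw [hsum]
    rcases (Ii i).eq_empty_or_nonempty with he | hne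
    · rw [he, sum_empty]; positivity
    · have hi1 : 1 ≤ i := by
        obtain ⟨j, hj⟩ := hne
        obtain ⟨i', hi', _⟩ := hnb j hj
        omega
      have hIiI : Ii i ⊆ I := filter_subset _ _
      have hsubE : ∀ j ∈ Ii i, (E j ∩ (Z i).support) ⊆ E j := fun j _ => inter_subset_left
      have hneE : ∀ j ∈ Ii i, (E j ∩ (Z i).support).Nonempty := fun j hj => (mem_filter.1 hj).2
      have hF' := hF.sub hIiI hsubE hneE
      have hAdm' := hAdm.sub hF hIiI hsubE hneE hne
      have hcov1 : Cov k (s * y (i - 1)) (Ii i) (mnE E) := by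
        refine Cov.combine (χ := χ) (le_trans (card_le_card (image_subset_image hIiI)) hχ1) ?_
        intro u hu
        obtain ⟨j, hj, rfl⟩ := mem_image.1 hu
        obtain ⟨i', hi', j', hj', hjj'⟩ := hnb j hj
        have hj'I : j' ∈ I := (mem_filter.1 hj').1
        have hmonoI : StrictMonoOn (mnE E) ((I.filter (fun l => χ l = χ j) : Finset ℕ) : Set ℕ) :=
          hF.strictMono.mono (by intro l hl; exact (mem_filter.1 hl).1)
        have hc := (hχ2 (χ j) (mem_image_of_mem _ (hIiI hj))).cov hmonoI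
          (i := j') (mem_filter.2 ⟨hj'I, hjj'⟩)
        have hle : ((mnE E j' : ℕ+) : ℕ) ≤ y (i - 1) := by
          obtain ⟨l, hl⟩ := (mem_filter.1 hj').2
          have h1 : ((mnE E j' : ℕ+) : ℕ) ≤ (l : ℕ) := mn_le (mem_inter.1 hl).1
          have h2 := hy i' (hi'.trans hir) l (Finsupp.mem_support_iff.1 (mem_inter.1 hl).2)
          have h3 : y i' ≤ y (i - 1) := hymono (by omega)
          omega
        refine (hc.mono hle).spread hmonoI ?_ ?_ (fun _ _ => le_rfl)
        · intro l hl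
          exact mem_filter.2 ⟨hIiI (mem_filter.1 hl).1, (mem_filter.1 hl).2⟩
        · exact hF.strictMono.mono (by intro l hl; exact hIiI (mem_filter.1 hl).1)
      have hcov2 : Cov k (s * y (i - 1)) (Ii i) (mnE fun j => E j ∩ (Z i).support) :=
        hcov1.spread (hF.strictMono.mono (by intro l hl; exact hIiI hl)) Subset.rfl
          hF'.strictMono (fun j hj => mn_anti (hsubE j hj) (hneE j hj))
      have := hPP i hir (Ii i) (fun j => E j ∩ (Z i).support) hF' hAdm' J hJ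
        (fun j hj => hIJ j (hIiI hj)) (s * y (i - 1)) hcov2
      refine le_trans this (mul_le_mul_of_nonneg_left ?_ hA0)
      push_cast
      have h2 := mul_le_mul_of_nonneg_left (hκ i hir hi1) hs0
      linarith
  -- sum up
  have e1 : ∀ j ∈ I, avgN N j (res (E j) (∑ i ∈ range r, (1 / (r : ℝ)) • Z i)) ≤
      ∑ i ∈ range r, (1 / (r : ℝ)) * avgN N j (res (E j) (Z i)) := by
    intro j _
    rw [res_sum]
    refine le_trans (av_sum_le h _ _ _) (sum_le_sum fun i _ => ?_)
    rw [res_smul]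
    exact av_smul_le h (by positivity) _ _
  refine le_trans (sum_le_sum e1) ?_
  rw [sum_comm]
  have e2 : ∀ i ∈ range r, ∑ j ∈ I, (1 / (r : ℝ)) * avgN N j (res (E j) (Z i)) ≤
      (1 / (r : ℝ)) * (A * (1 / J + s * (1 / r)) + (if i ∈ Bad then A else 0)) := by
    intro i hi
    rw [← mul_sum]
    refine mul_le_mul_of_nonneg_left ?_ (by positivity)
    by_cases hib : i ∈ Bad
    · rw [if_pos hib]
      have := (hlow i).trans (hA i (mem_range.1 hi))
      have h0 : 0 ≤ A * (1 / (J : ℝ) + s * (1 / r)) := by positivity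
      linarith
    · rw [if_neg hib, add_zero]
      exact hgood i hi hib
  refine le_trans (sum_le_sum e2) ?_
  rw [← mul_sum, sum_add_distrib, sum_const, card_range, nsmul_eq_mul, sum_ite_mem]
  have e3 : ∑ i ∈ range r ∩ Bad, A ≤ s * A := by
    rw [sum_const, nsmul_eq_mul]
    refine mul_le_mul_of_nonneg_right ?_ hA0
    have : (range r ∩ Bad).card ≤ s := le_trans (card_le_card inter_subset_right) hBad
    exact_mod_cast this
  have e4 : (1 / (r : ℝ)) * (r * (A * (1 / J + s * (1 / r))) + ∑ i ∈ range r ∩ Bad, A) ≤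
      (1 / (r : ℝ)) * (r * (A * (1 / J + s * (1 / r))) + s * A) :=
    mul_le_mul_of_nonneg_left (by linarith) (by positivity)
  refine le_trans e4 ?_
  have e5 : (1 / (r : ℝ)) * (r * (A * (1 / J + s * (1 / r))) + s * A) =
      A * (1 / J + 2 / r * s) := by
    field_simp
    ring
  rw [e5]
  refine mul_le_mul_of_nonneg_left ?_ hA0
  have := mul_le_mul_of_nonneg_right hκ' hs0
  linarith

end

end Pool.MP4a3daa
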