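import Pool.Agent.Lib.MP_4a3daa_an.H90.Norm

namespace Pool.MP4a3daa

open Finset

open Classical in
/-- the blocks met by `G` -/
noncomputable def touched (Z : ℕ → C00) (K : ℕ) (G : Finset ℕ+) : Finset ℕ :=
  (range K).filter (fun a => ∃ k ∈ G, Z a k ≠ 0)

open Classical in
/-- the blocks met by `G` other than the first one -/
noncomputable def later (Z : ℕ → C00) (K : ℕ) (G : Finset ℕ+) : Finset ℕ :=
  (touched Z K G).filter (fun a => ∃ b ∈ touched Z K G, b < a)

lemma mem_touched {Z : ℕ → C00} {K : ℕ} {G : Finset ℕ+} {a : ℕ} :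
    a ∈ touched Z K G ↔ a < K ∧ ∃ k ∈ G, Z a k ≠ 0 := by
  unfold touched; rw [mem_filter, mem_range]

lemma touched_mono {Z : ℕ → C00} {K : ℕ} {G G' : Finset ℕ+} (h : G' ⊆ G) :
    touched Z K G' ⊆ touched Z K G := by
  intro a ha
  obtain ⟨h1, k, hk, hz⟩ := mem_touched.1 ha
  exact mem_touched.2 ⟨h1, k, h hk, hz⟩

lemma later_mono {Z : ℕ → C00} {K : ℕ} {G G' : Finset ℕ+} (h : G' ⊆ G) :
    later Z K G' ⊆ later Z K G := by
  intro a ha
  obtain ⟨h1, b, hb, hba⟩ := mem_filter.1 ha
  exact mem_filter.2 ⟨touched_mono h h1, b, touched_mono h hb, hba⟩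

/-- The block lemma. -/
theorem block_lemma {n : ℕ} {N : C00 → ℝ} (h : IsImplicitNorm (n + 1) N) {K : ℕ} {Z : ℕ → C00}
    {y : ℕ → ℕ} {A : ℝ} {J : ℕ} {ε : ℕ → ℝ} (hA0 : 0 ≤ A)
    (hA : ∀ a < K, N (Z a) ≤ A) (hε : ∀ a, 0 ≤ ε a)
    (hpos : ∀ a < K, ∀ k, Z a k ≠ 0 → J ≤ (k : ℕ))
    (hy : ∀ a < K, ∀ k, Z a k ≠ 0 → (k : ℕ) ≤ y a)
    (hsep : ∀ a < K, ∀ b < K, a < b → ∀ k, Z b k ≠ 0 → y a < (k : ℕ))
    (hP : ∀ a < K, ∀ b < a, ∀ (I : Finset ℕ) (E : ℕ → Finset ℕ+), Fam I E →
      Adm (n + 1) I E → (∀ j ∈ I, J ≤ j) → Cov n (y b) I (mnE E) →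
      ∑ j ∈ I, avgN N j (res (E j) (Z a)) ≤ ε a) :
    ∀ G : Finset ℕ+, G ⊆ (∑ a ∈ range K, Z a).support →
      N (res G (∑ a ∈ range K, Z a)) ≤ A + 2 * ∑ a ∈ later Z K G, ε a := by
  classical
  set W : C00 := ∑ a ∈ range K, Z a with hW
  -- disjointness of the blocks
  have huniq : ∀ a < K, ∀ b < K, ∀ k, Z a k ≠ 0 → Z b k ≠ 0 → a = b := by
    intro a ha b hb k h1 h2
    rcases lt_trichotomy a b with hl | hl | hl
    · exact absurd (hy a ha k h1) (not_le.2 (hsep a ha b hb hl k h2))
    · exact hl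
    · exact absurd (hy b hb k h2) (not_le.2 (hsep b hb a ha hl k h1))
  have hWapply : ∀ k, W k = ∑ a ∈ range K, Z a k := by
    intro k; rw [hW, Finsupp.finsetSum_apply]
  have hWk : ∀ a < K, ∀ k, Z a k ≠ 0 → W k = Z a k := by
    intro a ha k hk
    rw [hWapply, sum_eq_single_of_mem a (mem_range.2 ha)]
    intro b hb hba
    by_contra hne
    exact hba (huniq b (mem_range.1 hb) a ha k hne hk)
  have hWex : ∀ k, W k ≠ 0 → ∃ a < K, Z a k ≠ 0 := by
    intro k hk
    by_contra hcon
    push Not at hcon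
    apply hk
    rw [hWapply]
    exact sum_eq_zero fun a ha => hcon a (mem_range.1 ha)
  have hresW : ∀ G : Finset ℕ+, res G W = ∑ a ∈ range K, res G (Z a) := by
    intro G; rw [hW, res_sum]
  intro G
  induction G using Finset.strongInduction with
  | H G ih =>
  intro hG
  set B : ℝ := A + 2 * ∑ a ∈ later Z K G, ε a with hB
  have hsum0 : ∀ s : Finset ℕ, 0 ≤ ∑ a ∈ s, ε a := fun s => sum_nonneg fun a _ => hε a
  have hAB : A ≤ B := by have := hsum0 (later Z K G); rw [hB]; linarith
  have hB0 : 0 ≤ B := hA0.trans hAB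
  suffices hmax : N (res G W) ≤ max B ((1 / 2) * N (res G W)) by
    rcases le_max_iff.1 hmax with h1 | h1
    · exact h1
    · have := N_nonneg h (res G W)
      have : N (res G W) ≤ 0 := by linarith
      linarith
  refine upper h ?_ ?_
  · intro k
    refine le_trans ?_ (le_max_left _ _)
    rw [res_apply]
    split_ifs with hk
    · obtain ⟨a, ha, hak⟩ := hWex k (Finsupp.mem_support_iff.1 (hG hk))
      rw [hWk a ha k hak]
      exact (abs_le_N h _ k).trans ((hA a ha).trans hAB)
    · simpa using hB0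
  intro I E hF hAdm
  -- members of the family meeting `G`
  set I' : Finset ℕ := I.filter (fun j => (E j ∩ G).Nonempty) with hI'
  have hzero : ∀ j ∈ I, j ∉ I' → ∀ x : C00, res (E j) (res G x) = 0 := by
    intro j hj hj' x
    rw [res_res]
    have : ¬ (E j ∩ G).Nonempty := fun hne => hj' (mem_filter.2 ⟨hj, hne⟩)
    rw [not_nonempty_iff_eq_empty.1 this, res_empty]
  have hsumI' : ∀ x : C00, ∑ j ∈ I, avgN N j (res (E j) (res G x)) =
      ∑ j ∈ I', avgN N j (res (E j) (res G x)) := by
    intro x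
    symm
    refine sum_subset (filter_subset _ _) fun j hj hj' => ?_
    rw [hzero j hj hj' x, av_zero h]
  rw [hsumI' W]
  rcases I'.eq_empty_or_nonempty with he | hne
  · rw [he, sum_empty]; exact hB0.trans (le_max_left _ _)
  set j1 : ℕ := I'.min' hne with hj1
  have hj1I' : j1 ∈ I' := I'.min'_mem hne
  have hj1I : j1 ∈ I := (mem_filter.1 hj1I').1
  set G1 : Finset ℕ+ := E j1 ∩ G with hG1
  have hG1ne : G1.Nonempty := (mem_filter.1 hj1I').2
  have hG1G : G1 ⊆ G := inter_subset_right
  have hG1E : G1 ⊆ E j1 := inter_subset_left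
  have hT1ne : (touched Z K G1).Nonempty := by
    obtain ⟨k, hk⟩ := hG1ne
    obtain ⟨a, ha, hak⟩ := hWex k (Finsupp.mem_support_iff.1 (hG (hG1G hk)))
    exact ⟨a, mem_touched.2 ⟨ha, k, hk, hak⟩⟩
  set α : ℕ := (touched Z K G1).min' hT1ne with hα
  set l : ℕ := (touched Z K G1).max' hT1ne with hl
  have hαT : α ∈ touched Z K G1 := min'_mem _ _
  have hlT : l ∈ touched Z K G1 := max'_mem _ _
  have hαl : α ≤ l := min'_le _ _ hlT
  obtain ⟨hαK, kα, hkαG1, hkα⟩ := mem_touched.1 hαT
  obtain ⟨hlK, kl, hklG1, hkl⟩ := mem_touched.1 hlT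
  set I2 : Finset ℕ := I'.erase j1 with hI2
  have hI2I : I2 ⊆ I := (erase_subset _ _).trans (filter_subset _ _)
  have hI2lt : ∀ j ∈ I2, j1 < j := by
    intro j hj
    obtain ⟨h1, h2⟩ := mem_erase.1 hj
    exact lt_of_le_of_ne (min'_le _ _ h2) (Ne.symm h1)
  have hafter : ∀ j ∈ I2, ∀ k ∈ E j, ∀ k' ∈ E j1, k' < k := by
    intro j hj k hk k' hk'
    exact hF.bef j1 hj1I j (hI2I hj) (hI2lt j hj) k' hk' k hk
  have hge : ∀ j ∈ I2, ∀ a < K, ∀ k ∈ E j, Z a k ≠ 0 → l ≤ a := by
    intro j hj a ha k hk hak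
    by_contra hcon
    have hlt : a < l := not_le.1 hcon
    have h1 := hsep a ha l hlK hlt kl hkl
    have h2 := hy a ha k hak
    have h3 : (kl : ℕ) < (k : ℕ) := hafter j hj k hk kl (hG1E hklG1)
    omega
  have hJI2 : ∀ j ∈ I2, J ≤ j := by
    intro j hj
    have h1 := hpos α hαK kα hkα
    have h2 := hF.fast j1 hj1I j (hI2I hj) (hI2lt j hj) kα (hG1E hkαG1)
    omega
  have hcov : Cov n (y α) I (mnE E) := by
    refine (Sch.cov hAdm hF.strictMono hj1I).mono ?_
    have h1 : ((mnE E j1 : ℕ+) : ℕ) ≤ (kα : ℕ) := mn_le (hG1E hkαG1)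
    exact h1.trans (hy α hαK kα hkα)
  have hPI2 : ∀ a < K, α < a → ∑ j ∈ I2, avgN N j (res (E j) (Z a)) ≤ ε a := by
    intro a ha hαa
    rcases I2.eq_empty_or_nonempty with he2 | hne2
    · rw [he2, sum_empty]; exact hε a
    · exact hP a ha α hαa I2 E (hF.sub hI2I (fun _ _ => Subset.rfl) (fun j hj => hF.ne j (hI2I hj)))
        (hAdm.sub hF hI2I (fun _ _ => Subset.rfl) (fun j hj => hF.ne j (hI2I hj)) hne2) hJI2
        (hcov.sub hF hI2I (fun _ _ => Subset.rfl) (fun j hj => hF.ne j (hI2I hj)))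
  -- the part of the sum after the first member
  set δ : ℝ := if l = α then ∑ j ∈ I2, avgN N j (res (E j) (res G (Z α))) else 0 with hδ
  have hS2 : ∑ j ∈ I2, avgN N j (res (E j) (res G W)) ≤
      δ + ∑ a ∈ (later Z K G).filter (fun a => l ≤ a), ε a := by
    have e1 : ∀ j ∈ I2, avgN N j (res (E j) (res G W)) ≤
        ∑ a ∈ range K, avgN N j (res (E j) (res G (Z a))) := by
      intro j _
      rw [hresW, res_sum]
      exact av_sum_le h j _ _
    refine le_trans (sum_le_sum e1) ?_
    rw [sum_comm]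
    have e2 : ∀ a ∈ range K, ∑ j ∈ I2, avgN N j (res (E j) (res G (Z a))) ≤
        (if a = α then δ else 0) +
          (if a ∈ (later Z K G).filter (fun a => l ≤ a) then ε a else 0) := by
      intro a ha
      have haK := mem_range.1 ha
      by_cases hex : ∃ j ∈ I2, ∃ k ∈ E j ∩ G, Z a k ≠ 0
      · obtain ⟨j, hj, k, hk, hak⟩ := hex
        have hla : l ≤ a := hge j hj a haK k (mem_inter.1 hk).1 hak
        by_cases haα : a = α
        · have hlα : l = α := le_antisymm (haα ▸ hla) hαl
          rw [if_pos haα, hδ, if_pos hlα, haα]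
          have : (0 : ℝ) ≤ (if α ∈ (later Z K G).filter (fun a => l ≤ a) then ε α else 0) := by
            split_ifs
            · exact hε _
            · exact le_rfl
          linarith
        · have hαa : α < a := lt_of_le_of_ne (hαl.trans hla) (Ne.symm haα)
          have hmem : a ∈ (later Z K G).filter (fun a => l ≤ a) := by
            refine mem_filter.2 ⟨mem_filter.2 ⟨mem_touched.2 ⟨haK, k, (mem_inter.1 hk).2, hak⟩,
              α, touched_mono hG1G hαT, hαa⟩, hla⟩
          rw [if_neg haα, if_pos hmem, zero_add]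
          refine le_trans (sum_le_sum fun j _ => ?_) (hPI2 a haK hαa)
          rw [res_comm]
          exact av_res_le h _ _ _
      · have hz : ∀ j ∈ I2, avgN N j (res (E j) (res G (Z a))) = 0 := by
          intro j hj
          rw [res_res, res_eq_zero, av_zero h]
          intro k hk
          by_contra hne'
          exact hex ⟨j, hj, k, hk, hne'⟩
        rw [sum_eq_zero hz]
        have h1 : (0 : ℝ) ≤ (if a = α then δ else 0) := by
          split_ifs
          · rw [hδ]
            split_ifs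
            · exact sum_nonneg fun j _ => av_nonneg h _ _
            · exact le_rfl
          · exact le_rfl
        have h2 : (0 : ℝ) ≤ (if a ∈ (later Z K G).filter (fun a => l ≤ a) then ε a else 0) := by
          split_ifs
          · exact hε _
          · exact le_rfl
        linarith
    refine le_trans (sum_le_sum e2) ?_
    rw [sum_add_distrib]
    have e3 : ∑ a ∈ range K, (if a = α then δ else 0) = δ := by
      rw [sum_ite_eq' (range K) α (fun _ => δ), if_pos (mem_range.2 hαK)]
    have e4 : ∑ a ∈ range K, (if a ∈ (later Z K G).filter (fun a => l ≤ a) then ε a else 0) ≤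
        ∑ a ∈ (later Z K G).filter (fun a => l ≤ a), ε a := by
      rw [← sum_filter]
      refine sum_le_sum_of_subset_of_nonneg ?_ (fun a _ _ => hε a)
      intro a ha
      exact (mem_filter.1 ha).2
    linarith
  have hsplit : ∀ x : C00, ∑ j ∈ I', avgN N j (res (E j) (res G x)) =
      avgN N j1 (res (E j1) (res G x)) + ∑ j ∈ I2, avgN N j (res (E j) (res G x)) := by
    intro x
    rw [hI2, add_sum_erase I' (fun j => avgN N j (res (E j) (res G x))) hj1I']
  have hfil : ∑ a ∈ (later Z K G).filter (fun a => l ≤ a), ε a ≤ ∑ a ∈ later Z K G, ε a :=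
    sum_le_sum_of_subset_of_nonneg (filter_subset _ _) (fun a _ _ => hε a)
  rw [hsplit W]
  by_cases hlα : l = α
  · -- the first member meets only one block
    refine le_trans ?_ (le_max_left _ _)
    have e1 : res (E j1) (res G W) = res (E j1) (res G (Z α)) := by
      rw [res_res, res_res, ← hG1]
      ext k
      rw [res_apply, res_apply]
      split_ifs with hk
      · by_cases hWk0 : W k = 0
        · rw [hWk0]
          by_contra hne'
          have := hWk α hαK k (fun h0 => hne' h0.symm)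
          rw [hWk0] at this
          exact hne' this
        · obtain ⟨a, ha, hak⟩ := hWex k hWk0
          have haT : a ∈ touched Z K G1 := mem_touched.2 ⟨ha, k, hk, hak⟩
          have h1 : α ≤ a := min'_le _ _ haT
          have h2 : a ≤ l := le_max' _ _ haT
          have : a = α := le_antisymm (hlα ▸ h2) h1
          rw [← this]
          exact hWk a ha k hak
      · rfl
    have e2 : avgN N j1 (res (E j1) (res G (Z α))) +
        ∑ j ∈ I2, avgN N j (res (E j) (res G (Z α))) ≤ A := by
      rw [← hsplit (Z α)]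
      refine le_trans (lower h (hF.sub (filter_subset _ _) (fun _ _ => Subset.rfl)
        (fun j hj => hF.ne j (mem_filter.1 hj).1)) (hAdm.sub hF (filter_subset _ _)
        (fun _ _ => Subset.rfl) (fun j hj => hF.ne j (mem_filter.1 hj).1) hne) (res G (Z α))) ?_
      exact (N_res_le h G (Z α)).trans (hA α hαK)
    rw [hδ, if_pos hlα] at hS2
    rw [e1, hB]
    have := hsum0 (later Z K G)
    linarith
  · -- the first member meets several blocks
    have hδ0 : δ = 0 := by rw [hδ, if_neg hlα]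
    rw [hδ0, zero_add] at hS2
    have hj12 : 2 ≤ j1 := hF.two j1 hj1I
    have hj1pos : (0 : ℝ) < j1 := by
      have : 0 < j1 := by omega
      exact_mod_cast this
    -- estimate for pieces which are proper subsets
    have hpieces : ∀ (D : Finset ℕ) (F : ℕ → Finset ℕ+), D.card ≤ j1 → Succ D F →
        (∀ t ∈ D, F t ∩ G1 ⊂ G) →
        (1 / (j1 : ℝ)) * ∑ t ∈ D, N (res (F t) (res (E j1) (res G W))) ≤
          A + ∑ a ∈ later Z K G1, ε a := by
      intro D F hD hS hprop
      have e1 : ∀ t ∈ D, N (res (F t) (res (E j1) (res G W))) ≤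
          A + 2 * ∑ a ∈ later Z K (F t ∩ G1), ε a := by
        intro t ht
        rw [res_res, res_res, inter_assoc, ← hG1]
        exact ih _ (hprop t ht) ((hprop t ht).1.trans hG)
      have hdisj : ∀ t ∈ D, ∀ t' ∈ D, t < t' →
          Disjoint (later Z K (F t ∩ G1)) (later Z K (F t' ∩ G1)) := by
        intro t ht t' ht' htt
        rw [Finset.disjoint_left]
        intro a ha ha'
        obtain ⟨haK, k, hk, hak⟩ := mem_touched.1 (mem_filter.1 ha).1
        obtain ⟨_, b, hb, hba⟩ := mem_filter.1 ha'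
        obtain ⟨hbK, k', hk', hbk'⟩ := mem_touched.1 hb
        have h1 : k < k' := hS t ht t' ht' htt k (mem_inter.1 hk).1 k' (mem_inter.1 hk').1
        have h2 := hy b hbK k' hbk'
        have h3 := hsep b hbK a haK hba k hak
        have h4 : (k : ℕ) < (k' : ℕ) := h1
        omega
      have e2 : ∑ t ∈ D, ∑ a ∈ later Z K (F t ∩ G1), ε a ≤ ∑ a ∈ later Z K G1, ε a := by
        rw [← sum_biUnion]
        · refine sum_le_sum_of_subset_of_nonneg ?_ (fun a _ _ => hε a)
          intro a ha
          obtain ⟨t, _, hta⟩ := mem_biUnion.1 ha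
          exact later_mono inter_subset_right hta
        · intro t ht t' ht' htt
          rcases lt_or_gt_of_ne htt with hlt | hlt
          · exact hdisj t ht t' ht' hlt
          · exact (hdisj t' ht' t ht hlt).symm
      have e3 : ∑ t ∈ D, N (res (F t) (res (E j1) (res G W))) ≤
          j1 * A + 2 * ∑ a ∈ later Z K G1, ε a := by
        refine le_trans (sum_le_sum e1) ?_
        rw [sum_add_distrib, sum_const, nsmul_eq_mul, ← mul_sum]
        have : (D.card : ℝ) * A ≤ j1 * A :=
          mul_le_mul_of_nonneg_right (by exact_mod_cast hD) hA0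
        linarith
      have e4 : (1 / (j1 : ℝ)) * (j1 * A + 2 * ∑ a ∈ later Z K G1, ε a) ≤
          A + ∑ a ∈ later Z K G1, ε a := by
        rw [one_div, inv_mul_le_iff₀ hj1pos]
        have h1 : (2 : ℝ) ≤ j1 := by exact_mod_cast hj12
        have h2 := hsum0 (later Z K G1)
        nlinarith
      exact le_trans (mul_le_mul_of_nonneg_left e3 (by positivity)) e4
    have hlG1 : ∑ a ∈ later Z K G1, ε a ≤ ∑ a ∈ later Z K G, ε a :=
      sum_le_sum_of_subset_of_nonneg (later_mono hG1G) (fun a _ _ => hε a)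
    by_cases hGG1 : G1 = G
    · -- `G` is contained in the first member
      have hI2e : I2 = ∅ := by
        rw [eq_empty_iff_forall_notMem]
        intro j hj
        obtain ⟨k, hk⟩ := (mem_filter.1 (mem_erase.1 hj).2).2
        have hkG1 : k ∈ G1 := by rw [hGG1]; exact (mem_inter.1 hk).2
        exact lt_irrefl _ (hafter j hj k (mem_inter.1 hk).1 k (hG1E hkG1))
      rw [hI2e, sum_empty, add_zero]
      refine av_le fun D F hD hS => ?_
      by_cases hex : ∃ t0 ∈ D, F t0 ∩ G1 = G
      · obtain ⟨t0, ht0, hFt0⟩ := hex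
        refine le_trans ?_ (le_max_right _ _)
        have hother : ∀ t ∈ D, t ≠ t0 → N (res (F t) (res (E j1) (res G W))) = 0 := by
          intro t ht htt
          rw [res_res, res_res, res_eq_zero, N_zero h]
          intro k hk
          exfalso
          have hkG : k ∈ G := (mem_inter.1 hk).2
          have hkF : k ∈ F t := (mem_inter.1 (mem_inter.1 hk).1).1
          have hkF0 : k ∈ F t0 := by
            rw [← hFt0] at hkG; exact (mem_inter.1 hkG).1
          rcases lt_or_gt_of_ne htt with hlt | hlt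
          · exact lt_irrefl _ (hS t ht t0 ht0 hlt k hkF k hkF0)
          · exact lt_irrefl _ (hS t0 ht0 t ht hlt k hkF0 k hkF)
        rw [sum_eq_single_of_mem t0 ht0 hother]
        rw [res_res, res_res, inter_assoc, ← hG1, hFt0]
        refine mul_le_mul_of_nonneg_right ?_ (N_nonneg h _)
        exact one_div_le_one_div_of_le (by norm_num) (by exact_mod_cast hj12)
      · refine le_trans (hpieces D F hD hS ?_) ?_
        · intro t ht
          refine ⟨inter_subset_right.trans hG1G, fun hcon => hex ⟨t, ht, ?_⟩⟩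
          exact Subset.antisymm (inter_subset_right.trans hG1G) hcon
        · refine le_trans ?_ (le_max_left _ _)
          rw [hB]
          have := hsum0 (later Z K G)
          linarith
    · refine le_trans ?_ (le_max_left _ _)
      have e1 : avgN N j1 (res (E j1) (res G W)) ≤ A + ∑ a ∈ later Z K G1, ε a := by
        refine av_le fun D F hD hS => hpieces D F hD hS ?_
        intro t _
        refine ⟨inter_subset_right.trans hG1G, fun hcon => hGG1 ?_⟩
        exact Subset.antisymm hG1G (hcon.trans inter_subset_right)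
      rw [hB]
      linarith

/-- The block lemma for the whole sum. -/
theorem block_sum {n : ℕ} {N : C00 → ℝ} (h : IsImplicitNorm (n + 1) N) {K : ℕ} {Z : ℕ → C00}
    {y : ℕ → ℕ} {A : ℝ} {J : ℕ} {ε : ℕ → ℝ} (hA0 : 0 ≤ A)
    (hA : ∀ a < K, N (Z a) ≤ A) (hε : ∀ a, 0 ≤ ε a)
    (hpos : ∀ a < K, ∀ k, Z a k ≠ 0 → J ≤ (k : ℕ))
    (hy : ∀ a < K, ∀ k, Z a k ≠ 0 → (k : ℕ) ≤ y a)
    (hsep : ∀ a < K, ∀ b < K, a < b → ∀ k, Z b k ≠ 0 → y a < (k : ℕ))
    (hP : ∀ a < K, ∀ b < a, ∀ (I : Finset ℕ) (E : ℕ → Finset ℕ+), Fam I E →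
      Adm (n + 1) I E → (∀ j ∈ I, J ≤ j) → Cov n (y b) I (mnE E) →
      ∑ j ∈ I, avgN N j (res (E j) (Z a)) ≤ ε a) :
    N (∑ a ∈ range K, Z a) ≤ A + 2 * ∑ a ∈ (range K).erase 0, ε a := by
  classical
  have := block_lemma h hA0 hA hε hpos hy hsep hP (∑ a ∈ range K, Z a).support Subset.rfl
  rw [res_eq_self (fun k hk => Finsupp.mem_support_iff.2 hk)] at this
  refine this.trans ?_
  have h2 : ∑ a ∈ later Z K (∑ a ∈ range K, Z a).support, ε a ≤
      ∑ a ∈ (range K).erase 0, ε a := by
    refine sum_le_sum_of_subset_of_nonneg ?_ (fun a _ _ => hε a)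
    intro a ha
    obtain ⟨h1, b, _, hb⟩ := mem_filter.1 ha
    exact mem_erase.2 ⟨by omega, mem_range.2 (mem_touched.1 h1).1⟩
  linarith

end Pool.MP4a3daa
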