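import Mathlib

/-!
# The spaces `X^n_{0,1}`: definitions

`c₀₀` is the space of finitely supported real sequences with coordinates indexed by
the positive integers.
-/

namespace Pool.MP4a3daa

open Finset

/-- `c₀₀`: finitely supported real sequences `(x_1, x_2, …)`. -/
abbrev C00 : Type := ℕ+ →₀ ℝ

/-- `A < B` for finite sets of positive integers: every element of `A` is smaller than every
element of `B`. -/
def Before (A B : Finset ℕ+) : Prop := ∀ a ∈ A, ∀ b ∈ B, a < b

/-- The Schreier families: `𝒮_0` is the family of singletons, `𝒮_1` the family of nonempty `F`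
with `#F ≤ min F`, and for `k ≥ 1` a set `F` is in `𝒮_{k+1}` if it is a union
`F = G_0 ∪ … ∪ G_{r-1}` with `r ≥ 1`, `G_0 < … < G_{r-1}` in `𝒮_k` and `r ≤ min F`. -/
def Schreier : ℕ → Finset ℕ+ → Prop
  | 0, F => ∃ m, F = {m}
  | 1, F => F.Nonempty ∧ ∀ a ∈ F, F.card ≤ (a : ℕ)
  | k + 2, F => ∃ (r : ℕ) (G : ℕ → Finset ℕ+), 1 ≤ r ∧ (∀ i < r, Schreier (k + 1) (G i)) ∧
      (∀ i < r, ∀ i' < r, i < i' → Before (G i) (G i')) ∧ F = (range r).biUnion G ∧
      ∀ a ∈ F, r ≤ (a : ℕ)

/-- The minimum of a nonempty finite set of positive integers (and `1` for the empty set). -/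
noncomputable def mn (E : Finset ℕ+) : ℕ+ := if h : E.Nonempty then E.min' h else 1

/-- The restriction `E x` of `x` to the coordinates in `E`. -/
noncomputable def res (E : Finset ℕ+) (x : C00) : C00 := x.filter (fun k => k ∈ E)

/-- `‖y‖_j`: the supremum of `(1/j) ∑_{q<d} ‖F_q y‖` over `d ≤ j` and successive finite sets
`F_0 < … < F_{d-1}`. -/
noncomputable def avgN (N : C00 → ℝ) (j : ℕ) (y : C00) : ℝ :=
  sSup {t : ℝ | ∃ (d : ℕ) (F : ℕ → Finset ℕ+), d ≤ j ∧
    (∀ p < d, ∀ q < d, p < q → Before (F p) (F q)) ∧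
    t = (1 / (j : ℝ)) * ∑ q ∈ range d, N (res (F q) y)}

/-- The data of the outer supremum in the implicit formula (indices start at `0`):
nonempty finite sets `E_0 < … < E_{d-1}` whose minima form a set of `𝒮_n`, and integers
`2 ≤ j_0 < … < j_{d-1}` with `j_q > max E_p` for all `p < q` (equivalently
`j_q > max E_{q-1}` for `q ≥ 1`). -/
structure IsAdm (n d : ℕ) (E : ℕ → Finset ℕ+) (j : ℕ → ℕ) : Prop where
  nonempty : ∀ q < d, (E q).Nonempty
  before : ∀ p < d, ∀ q < d, p < q → Before (E p) (E q)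
  schreier : Schreier n ((range d).image fun q => mn (E q))
  two_le : ∀ q < d, 2 ≤ j q
  mono : ∀ p < d, ∀ q < d, p < q → j p < j q
  fast : ∀ p < d, ∀ q < d, p < q → ∀ a ∈ E p, (a : ℕ) < j q

/-- `N` is a norm on `c₀₀` which satisfies the implicit formula defining the norm of
`X^n_{0,1}`:
`‖x‖ = max (‖x‖_∞, sup ∑_q ‖E_q x‖_{j_q})`.  (The value is a least upper bound of the set of all
`|x_k|` and of all sums `∑_q ‖E_q x‖_{j_q}`; positive definiteness is a consequence.) -/
structure IsImplicitNorm (n : ℕ) (N : C00 → ℝ) : Prop where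
  add_le : ∀ x y, N (x + y) ≤ N x + N y
  smul : ∀ (c : ℝ) (x : C00), N (c • x) = |c| * N x
  formula : ∀ x, IsLUB ({t : ℝ | ∃ k, t = |x k|} ∪
    {t : ℝ | ∃ (d : ℕ) (E : ℕ → Finset ℕ+) (j : ℕ → ℕ), IsAdm n d E j ∧
      t = ∑ q ∈ range d, avgN N (j q) (res (E q) x)}) (N x)

/-- `X` together with `ι : c₀₀ → X` is the space `X^n_{0,1}`, i.e. the completion of `c₀₀` for a
norm satisfying the implicit formula. -/
structure IsX01 (n : ℕ) (X : Type*) [NormedAddCommGroup X] [NormedSpace ℝ X] [CompleteSpace X]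
    (ι : C00 →ₗ[ℝ] X) : Prop where
  implicit : IsImplicitNorm n (fun x => ‖ι x‖)
  dense : DenseRange ι

/-- A Banach space `X` is minimal if every infinite-dimensional closed subspace of `X` contains a
closed infinite-dimensional subspace isomorphic to `X`. -/
def IsMinimal (X : Type*) [NormedAddCommGroup X] [NormedSpace ℝ X] : Prop :=
  ∀ Y : Submodule ℝ X, IsClosed (Y : Set X) → ¬ FiniteDimensional ℝ Y →
    ∃ Z : Submodule ℝ X, Z ≤ Y ∧ IsClosed (Z : Set X) ∧ ¬ FiniteDimensional ℝ Z ∧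
      Nonempty (X ≃L[ℝ] Z)

end Pool.MP4a3daa
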