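import Pool.Agent.Lib.MP_4a3daa_an.H90.Norm

namespace Pool.MP4a3daa

open Finset

/-- the `ℓ_1` norm -/
noncomputable def L1 (x : C00) : ℝ := ∑ k ∈ x.support, |x k|

lemma L1_nonneg (x : C00) : 0 ≤ L1 x := sum_nonneg fun _ _ => abs_nonneg _

lemma abs_le_L1 (x : C00) (k : ℕ+) : |x k| ≤ L1 x := by
  by_cases hk : x k = 0
  · rw [hk, abs_zero]; exact L1_nonneg x
  · exact single_le_sum (f := fun k => |x k|) (fun _ _ => abs_nonneg _)
      (Finsupp.mem_support_iff.2 hk)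

lemma sum_L1_res_le {d : ℕ} {F : ℕ → Finset ℕ+}
    (hF : ∀ p < d, ∀ q < d, p < q → Before (F p) (F q)) (x : C00) :
    ∑ q ∈ range d, L1 (res (F q) x) ≤ L1 x := by
  classical
  have h1 : ∀ q ∈ range d, L1 (res (F q) x) =
      ∑ k ∈ x.support.filter (fun k => k ∈ F q), |x k| := by
    intro q _
    have hs : (res (F q) x).support = x.support.filter (fun k => k ∈ F q) := by
      ext k
      simp only [Finsupp.mem_support_iff, mem_filter, res_apply]
      split_ifs with hk <;> simp [hk]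
    unfold L1
    rw [hs]
    refine sum_congr rfl fun k hk => ?_
    rw [res_apply, if_pos (mem_filter.1 hk).2]
  rw [sum_congr rfl h1, ← sum_biUnion]
  · refine sum_le_sum_of_subset_of_nonneg ?_ (fun k _ _ => abs_nonneg _)
    intro k hk
    obtain ⟨q, _, hq⟩ := mem_biUnion.1 hk
    exact (mem_filter.1 hq).1
  · intro p hp q hq hpq
    rw [Function.onFun, Finset.disjoint_left]
    intro k hk1 hk2
    have e1 := (mem_filter.1 hk1).2
    have e2 := (mem_filter.1 hk2).2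
    rcases lt_or_gt_of_ne hpq with hlt | hlt
    · exact lt_irrefl _ (hF p (mem_range.1 hp) q (mem_range.1 hq) hlt k e1 k e2)
    · exact lt_irrefl _ (hF q (mem_range.1 hq) p (mem_range.1 hp) hlt k e2 k e1)

lemma smul_of_le {f : C00 → ℝ} (h0 : ∀ x, 0 ≤ f x) (h : ∀ (c : ℝ) x, f (c • x) ≤ |c| * f x) :
    ∀ (c : ℝ) x, f (c • x) = |c| * f x := by
  intro c x
  refine le_antisymm (h c x) ?_
  rcases eq_or_ne c 0 with rfl | hc
  · rw [abs_zero, zero_mul]; exact h0 _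
  · have h1 := h c⁻¹ (c • x)
    rw [smul_smul, inv_mul_cancel₀ hc, one_smul, abs_inv] at h1
    have hpos : 0 < |c| := abs_pos.2 hc
    have := mul_le_mul_of_nonneg_left h1 hpos.le
    rwa [← mul_assoc, mul_inv_cancel₀ hpos.ne', one_mul] at this

/-- seminorms below the `ℓ_1` norm -/
structure SN (M : C00 → ℝ) : Prop where
  add_le : ∀ x y, M (x + y) ≤ M x + M y
  smul : ∀ (c : ℝ) x, M (c • x) = |c| * M x
  le_L1 : ∀ x, M x ≤ L1 x

section

variable {M : C00 → ℝ} (hM : SN M)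

include hM

lemma SN.nonneg (x : C00) : 0 ≤ M x := by
  have h1 := hM.add_le x ((-1 : ℝ) • x)
  rw [hM.smul (-1) x] at h1
  have h2 : x + (-1 : ℝ) • x = 0 := by simp
  have h3 := hM.smul 0 0
  rw [zero_smul, abs_zero, zero_mul] at h3
  rw [h2, h3] at h1
  simp at h1
  linarith

lemma SN.sum_res_le {d : ℕ} {F : ℕ → Finset ℕ+}
    (hF : ∀ p < d, ∀ q < d, p < q → Before (F p) (F q)) (x : C00) :
    ∑ q ∈ range d, M (res (F q) x) ≤ L1 x :=
  (sum_le_sum fun _ _ => hM.le_L1 _).trans (sum_L1_res_le hF x)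

lemma SN.term_le (j : ℕ) {d : ℕ} {F : ℕ → Finset ℕ+}
    (hF : ∀ p < d, ∀ q < d, p < q → Before (F p) (F q)) (y : C00) :
    (1 / (j : ℝ)) * ∑ q ∈ range d, M (res (F q) y) ≤ L1 y := by
  have h0 : 0 ≤ ∑ q ∈ range d, M (res (F q) y) := sum_nonneg fun q _ => hM.nonneg _
  have h2 : (1 / (j : ℝ)) ≤ 1 := by
    rcases Nat.eq_zero_or_pos j with hj | hj
    · rw [hj]; norm_num
    · rw [div_le_one (by exact_mod_cast hj)]
      exact_mod_cast hj
  calc (1 / (j : ℝ)) * ∑ q ∈ range d, M (res (F q) y)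
      ≤ 1 * ∑ q ∈ range d, M (res (F q) y) := mul_le_mul_of_nonneg_right h2 h0
    _ ≤ _ := by rw [one_mul]; exact hM.sum_res_le hF y

lemma SN.avg_bdd (j : ℕ) (y : C00) : BddAbove {t : ℝ | ∃ (d : ℕ) (F : ℕ → Finset ℕ+), d ≤ j ∧
    (∀ p < d, ∀ q < d, p < q → Before (F p) (F q)) ∧
    t = (1 / (j : ℝ)) * ∑ q ∈ range d, M (res (F q) y)} := by
  refine ⟨L1 y, ?_⟩
  rintro t ⟨d, F, _, hF, rfl⟩
  exact hM.term_le j hF y

omit hM in
lemma avg_le {j : ℕ} {y : C00} {B : ℝ}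
    (hB : ∀ (d : ℕ) (F : ℕ → Finset ℕ+), d ≤ j →
      (∀ p < d, ∀ q < d, p < q → Before (F p) (F q)) →
      (1 / (j : ℝ)) * ∑ q ∈ range d, M (res (F q) y) ≤ B) : avgN M j y ≤ B := by
  refine csSup_le ⟨_, 0, fun _ => ∅, Nat.zero_le _, by simp, rfl⟩ ?_
  rintro t ⟨d, F, hd, hF, rfl⟩
  exact hB d F hd hF

lemma SN.le_avg {j : ℕ} (y : C00) {d : ℕ} {F : ℕ → Finset ℕ+} (hd : d ≤ j)
    (hF : ∀ p < d, ∀ q < d, p < q → Before (F p) (F q)) :
    (1 / (j : ℝ)) * ∑ q ∈ range d, M (res (F q) y) ≤ avgN M j y :=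
  le_csSup (hM.avg_bdd j y) ⟨d, F, hd, hF, rfl⟩

lemma SN.avg_nonneg (j : ℕ) (y : C00) : 0 ≤ avgN M j y := by
  have := hM.le_avg (j := j) y (d := 0) (F := fun _ => ∅) (Nat.zero_le _) (by simp)
  simpa using this

lemma SN.avg_le_L1 (j : ℕ) (y : C00) : avgN M j y ≤ L1 y :=
  avg_le fun _ _ _ hF => hM.term_le j hF y

lemma SN.avg_add (j : ℕ) (x y : C00) : avgN M j (x + y) ≤ avgN M j x + avgN M j y := by
  refine avg_le fun d F hd hF => ?_
  have h1 := hM.le_avg x hd hF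
  have h2 := hM.le_avg y hd hF
  have h3 : ∑ q ∈ range d, M (res (F q) (x + y)) ≤
      ∑ q ∈ range d, M (res (F q) x) + ∑ q ∈ range d, M (res (F q) y) := by
    rw [← sum_add_distrib]
    exact sum_le_sum fun q _ => by rw [res_add]; exact hM.add_le _ _
  have h4 : (0 : ℝ) ≤ 1 / (j : ℝ) := by positivity
  have := mul_le_mul_of_nonneg_left h3 h4
  linarith

lemma SN.avg_smul (j : ℕ) (c : ℝ) (x : C00) : avgN M j (c • x) ≤ |c| * avgN M j x := by
  refine avg_le fun d F hd hF => ?_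
  have h1 := hM.le_avg x hd hF
  have h3 : ∑ q ∈ range d, M (res (F q) (c • x)) = |c| * ∑ q ∈ range d, M (res (F q) x) := by
    rw [mul_sum]
    exact sum_congr rfl fun q _ => by rw [res_smul, hM.smul]
  rw [h3]
  have := mul_le_mul_of_nonneg_left h1 (abs_nonneg c)
  linarith

omit hM in
lemma avg_mono {M' : C00 → ℝ} (hM' : SN M') (hle : ∀ x, M x ≤ M' x) (j : ℕ) (y : C00) :
    avgN M j y ≤ avgN M' j y := by
  refine avg_le fun d F hd hF => ?_
  refine le_trans ?_ (hM'.le_avg y hd hF)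
  exact mul_le_mul_of_nonneg_left (sum_le_sum fun q _ => hle _) (by positivity)

end

/-- the set in the implicit formula -/
def FS (n : ℕ) (M : C00 → ℝ) (x : C00) : Set ℝ :=
  {t : ℝ | ∃ k, t = |x k|} ∪
    {t : ℝ | ∃ (d : ℕ) (E : ℕ → Finset ℕ+) (j : ℕ → ℕ), IsAdm n d E j ∧
      t = ∑ q ∈ range d, avgN M (j q) (res (E q) x)}

/-- the operator of the implicit formula -/
noncomputable def Psi (n : ℕ) (M : C00 → ℝ) (x : C00) : ℝ := sSup (FS n M x)

lemma FS_nonempty (n : ℕ) (M : C00 → ℝ) (x : C00) : (FS n M x).Nonempty :=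
  ⟨|x 1|, Or.inl ⟨1, rfl⟩⟩

section

variable {n : ℕ} {M : C00 → ℝ} (hM : SN M)

include hM

lemma SN.FS_le {x : C00} {t : ℝ} (ht : t ∈ FS n M x) : t ≤ L1 x := by
  rcases ht with ⟨k, rfl⟩ | ⟨d, E, j, hadm, rfl⟩
  · exact abs_le_L1 x k
  · exact (sum_le_sum fun _ _ => hM.avg_le_L1 _ _).trans (sum_L1_res_le hadm.before x)

lemma SN.FS_bdd (x : C00) : BddAbove (FS n M x) := ⟨L1 x, fun _ ht => hM.FS_le ht⟩

lemma SN.le_Psi {x : C00} {t : ℝ} (ht : t ∈ FS n M x) : t ≤ Psi n M x :=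
  le_csSup (hM.FS_bdd x) ht

lemma SN.Psi_nonneg (x : C00) : 0 ≤ Psi n M x :=
  (abs_nonneg (x 1)).trans (hM.le_Psi (Or.inl ⟨1, rfl⟩))

lemma SN.Psi_sn : SN (Psi n M) where
  add_le := by
    intro x y
    refine csSup_le (FS_nonempty _ _ _) ?_
    rintro t (⟨k, rfl⟩ | ⟨d, E, j, hadm, rfl⟩)
    · rw [Finsupp.add_apply]
      exact (abs_add_le _ _).trans (add_le_add (hM.le_Psi (Or.inl ⟨k, rfl⟩))
        (hM.le_Psi (Or.inl ⟨k, rfl⟩)))
    · have h1 : ∑ q ∈ range d, avgN M (j q) (res (E q) (x + y)) ≤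
          ∑ q ∈ range d, avgN M (j q) (res (E q) x) +
            ∑ q ∈ range d, avgN M (j q) (res (E q) y) := by
        rw [← sum_add_distrib]
        exact sum_le_sum fun q _ => by rw [res_add]; exact hM.avg_add _ _ _
      exact h1.trans (add_le_add (hM.le_Psi (Or.inr ⟨d, E, j, hadm, rfl⟩))
        (hM.le_Psi (Or.inr ⟨d, E, j, hadm, rfl⟩)))
  smul := by
    refine smul_of_le (fun x => hM.Psi_nonneg x) ?_
    intro c x
    refine csSup_le (FS_nonempty _ _ _) ?_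
    rintro t (⟨k, rfl⟩ | ⟨d, E, j, hadm, rfl⟩)
    · rw [Finsupp.smul_apply, smul_eq_mul, abs_mul]
      exact mul_le_mul_of_nonneg_left (hM.le_Psi (Or.inl ⟨k, rfl⟩)) (abs_nonneg _)
    · have h1 : ∑ q ∈ range d, avgN M (j q) (res (E q) (c • x)) ≤
          |c| * ∑ q ∈ range d, avgN M (j q) (res (E q) x) := by
        rw [mul_sum]
        exact sum_le_sum fun q _ => by rw [res_smul]; exact hM.avg_smul _ _ _
      exact h1.trans (mul_le_mul_of_nonneg_left (hM.le_Psi (Or.inr ⟨d, E, j, hadm, rfl⟩))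
        (abs_nonneg _))
  le_L1 := fun x => csSup_le (FS_nonempty _ _ _) (fun _ ht => hM.FS_le ht)

omit hM in
lemma Psi_mono {M' : C00 → ℝ} (hM' : SN M') (hle : ∀ x, M x ≤ M' x) (x : C00) :
    Psi n M x ≤ Psi n M' x := by
  refine csSup_le (FS_nonempty _ _ _) ?_
  rintro t (⟨k, rfl⟩ | ⟨d, E, j, hadm, rfl⟩)
  · exact hM'.le_Psi (Or.inl ⟨k, rfl⟩)
  · exact (sum_le_sum fun q _ => avg_mono hM' hle _ _).trans
      (hM'.le_Psi (Or.inr ⟨d, E, j, hadm, rfl⟩))

end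

/-- The implicit formula has a solution. -/
theorem exists_norm (n : ℕ) : ∃ N : C00 → ℝ, IsImplicitNorm n N := by
  classical
  let Cl : Set (C00 → ℝ) := {M | SN M ∧ ∀ x, M x ≤ Psi n M x}
  have h0 : (fun _ : C00 => (0 : ℝ)) ∈ Cl := by
    have hs : SN (fun _ : C00 => (0 : ℝ)) :=
      ⟨fun _ _ => by simp, fun _ _ => by simp, fun x => L1_nonneg x⟩
    exact ⟨hs, fun x => hs.Psi_nonneg x⟩
  let N : C00 → ℝ := fun x => sSup {t : ℝ | ∃ M ∈ Cl, t = M x}
  have hne : ∀ x, {t : ℝ | ∃ M ∈ Cl, t = M x}.Nonempty := fun x => ⟨_, _, h0, rfl⟩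
  have hbdd : ∀ x, BddAbove {t : ℝ | ∃ M ∈ Cl, t = M x} := by
    intro x
    refine ⟨L1 x, ?_⟩
    rintro t ⟨M, hM, rfl⟩
    exact hM.1.le_L1 x
  have hle : ∀ M ∈ Cl, ∀ x, M x ≤ N x := fun M hM x => le_csSup (hbdd x) ⟨M, hM, rfl⟩
  have hN0 : ∀ x, 0 ≤ N x := fun x => hle _ h0 x
  have hN : SN N := by
    refine ⟨?_, smul_of_le hN0 ?_, ?_⟩
    · intro x y
      refine csSup_le (hne _) ?_
      rintro t ⟨M, hM, rfl⟩
      exact (hM.1.add_le x y).trans (add_le_add (hle M hM x) (hle M hM y))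
    · intro c x
      refine csSup_le (hne _) ?_
      rintro t ⟨M, hM, rfl⟩
      rw [hM.1.smul]
      exact mul_le_mul_of_nonneg_left (hle M hM x) (abs_nonneg _)
    · intro x
      refine csSup_le (hne _) ?_
      rintro t ⟨M, hM, rfl⟩
      exact hM.1.le_L1 x
  have hNPsi : ∀ x, N x ≤ Psi n N x := by
    intro x
    refine csSup_le (hne _) ?_
    rintro t ⟨M, hM, rfl⟩
    exact (hM.2 x).trans (Psi_mono hN (hle M hM) x)
  have hPsi : Psi n N ∈ Cl := ⟨hN.Psi_sn, Psi_mono hN.Psi_sn hNPsi⟩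
  have heq : ∀ x, N x = Psi n N x := fun x => le_antisymm (hNPsi x) (hle _ hPsi x)
  refine ⟨N, hN.add_le, hN.smul, fun x => ?_⟩
  have := isLUB_csSup (FS_nonempty n N x) (hN.FS_bdd x)
  rw [heq x]
  exact this

/-- The space `X^n_{0,1}` exists. -/
theorem exists_space (n : ℕ) : ∃ (X : Type) (_ : NormedAddCommGroup X) (_ : NormedSpace ℝ X)
    (_ : CompleteSpace X) (ι : C00 →ₗ[ℝ] X), IsX01 n X ι := by
  obtain ⟨N, hN⟩ := exists_norm n
  let _ : Norm C00 := ⟨N⟩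
  have core : NormedSpace.Core ℝ C00 :=
    { norm_nonneg := fun x => N_nonneg hN x
      norm_smul := fun c x => by rw [Real.norm_eq_abs]; exact hN.smul c x
      norm_triangle := fun x y => hN.add_le x y
      norm_eq_zero_iff := fun x => by
        constructor
        · intro hx
          ext k
          have h1 := abs_le_N hN x k
          have h2 : N x = 0 := hx
          rw [h2] at h1
          simpa using le_antisymm h1 (abs_nonneg _)
        · rintro rfl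
          exact N_zero hN }
  let _ : NormedAddCommGroup C00 := NormedAddCommGroup.ofCore core
  let _ : NormedSpace ℝ C00 := NormedSpace.ofCore core
  refine ⟨UniformSpace.Completion C00, inferInstance, inferInstance, inferInstance,
    (UniformSpace.Completion.toComplₗᵢ (𝕜 := ℝ) (E := C00)).toLinearMap, ?_, ?_⟩
  · have : (fun x : C00 => ‖(UniformSpace.Completion.toComplₗᵢ (𝕜 := ℝ) (E := C00)).toLinearMap x‖)
        = N := by
      ext x
      exact UniformSpace.Completion.norm_coe x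
    rw [this]
    exact hN
  · exact UniformSpace.Completion.denseRange_coe

end Pool.MP4a3daa
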