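import Pool.Agent.Lib.MP_4a3daa_an.H90.Sch

namespace Pool.MP4a3daa

open Finset

lemma mn_mem {E : Finset ℕ+} (h : E.Nonempty) : mn E ∈ E := by
  unfold mn; rw [dif_pos h]; exact E.min'_mem h

lemma mn_le {E : Finset ℕ+} {a : ℕ+} (h : a ∈ E) : mn E ≤ a := by
  have hne : E.Nonempty := ⟨a, h⟩
  unfold mn; rw [dif_pos hne]; exact E.min'_le a h

lemma mn_anti {E E' : Finset ℕ+} (h : E' ⊆ E) (hne : E'.Nonempty) : mn E ≤ mn E' :=
  mn_le (h (mn_mem hne))

/-- A family `(E_j)_{j ∈ I}` indexed by the integers `j` themselves. -/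
structure Fam (I : Finset ℕ) (E : ℕ → Finset ℕ+) : Prop where
  ne : ∀ j ∈ I, (E j).Nonempty
  bef : ∀ i ∈ I, ∀ j ∈ I, i < j → Before (E i) (E j)
  two : ∀ j ∈ I, 2 ≤ j
  fast : ∀ i ∈ I, ∀ j ∈ I, i < j → ∀ a ∈ E i, (a : ℕ) < j

/-- the minima of a family -/
noncomputable def mnE (E : ℕ → Finset ℕ+) : ℕ → ℕ+ := fun j => mn (E j)

/-- admissible families -/
def Adm (n : ℕ) (I : Finset ℕ) (E : ℕ → Finset ℕ+) : Prop := Sch n (I.image (mnE E))

lemma Fam.strictMono {I : Finset ℕ} {E : ℕ → Finset ℕ+} (h : Fam I E) :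
    StrictMonoOn (mnE E) (I : Set ℕ) := by
  intro i hi j hj hij
  exact h.bef i hi j hj hij _ (mn_mem (h.ne i hi)) _ (mn_mem (h.ne j hj))

lemma Fam.sub {I I' : Finset ℕ} {E E' : ℕ → Finset ℕ+} (h : Fam I E) (hI : I' ⊆ I)
    (hE : ∀ j ∈ I', E' j ⊆ E j) (hne : ∀ j ∈ I', (E' j).Nonempty) : Fam I' E' where
  ne := hne
  bef := fun i hi j hj hij a ha b hb =>
    h.bef i (hI hi) j (hI hj) hij a (hE i hi ha) b (hE j hj hb)
  two := fun j hj => h.two j (hI hj)
  fast := fun i hi j hj hij a ha => h.fast i (hI hi) j (hI hj) hij a (hE i hi ha)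

lemma Adm.sub {n : ℕ} {I I' : Finset ℕ} {E E' : ℕ → Finset ℕ+} (hF : Fam I E) (hA : Adm n I E)
    (hI : I' ⊆ I) (hE : ∀ j ∈ I', E' j ⊆ E j) (hne : ∀ j ∈ I', (E' j).Nonempty)
    (hI' : I'.Nonempty) : Adm n I' E' :=
  Sch.spread hA hF.strictMono hI hI' (hF.sub hI hE hne).strictMono
    (fun j hj => mn_anti (hE j hj) (hne j hj))

lemma Cov.sub {k s : ℕ} {I I' : Finset ℕ} {E E' : ℕ → Finset ℕ+} (hF : Fam I E)
    (hC : Cov k s I (mnE E)) (hI : I' ⊆ I) (hE : ∀ j ∈ I', E' j ⊆ E j)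
    (hne : ∀ j ∈ I', (E' j).Nonempty) : Cov k s I' (mnE E') :=
  Cov.spread hC hF.strictMono hI (hF.sub hI hE hne).strictMono
    (fun j hj => mn_anti (hE j hj) (hne j hj))

/-! ### restrictions -/

lemma res_apply (E : Finset ℕ+) (x : C00) (k : ℕ+) : res E x k = if k ∈ E then x k else 0 := by
  unfold res; rw [Finsupp.filter_apply]

lemma res_add (E : Finset ℕ+) (x y : C00) : res E (x + y) = res E x + res E y := by
  ext k; simp only [res_apply, Finsupp.add_apply]; split_ifs <;> simp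

lemma res_smul (E : Finset ℕ+) (c : ℝ) (x : C00) : res E (c • x) = c • res E x := by
  ext k; simp only [res_apply, Finsupp.smul_apply]; split_ifs <;> simp

lemma res_zero (E : Finset ℕ+) : res E (0 : C00) = 0 := by
  ext k; simp [res_apply]

lemma res_sum {ι : Type*} (E : Finset ℕ+) (s : Finset ι) (f : ι → C00) :
    res E (∑ i ∈ s, f i) = ∑ i ∈ s, res E (f i) := by
  classical
  induction s using Finset.induction_on with
  | empty => simp [res_zero]
  | insert a s ha ih => rw [sum_insert ha, sum_insert ha, res_add, ih]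

lemma res_res (E F : Finset ℕ+) (x : C00) : res E (res F x) = res (E ∩ F) x := by
  ext k; simp only [res_apply, mem_inter]; split_ifs <;> simp_all

lemma res_comm (E F : Finset ℕ+) (x : C00) : res E (res F x) = res F (res E x) := by
  rw [res_res, res_res, inter_comm]

lemma res_eq_zero {E : Finset ℕ+} {x : C00} (h : ∀ k ∈ E, x k = 0) : res E x = 0 := by
  ext k; rw [res_apply]; split_ifs with hk
  · simpa using h k hk
  · rfl

lemma res_empty (x : C00) : res ∅ x = 0 := res_eq_zero (by simp)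

lemma res_eq_self {E : Finset ℕ+} {x : C00} (h : ∀ k, x k ≠ 0 → k ∈ E) : res E x = x := by
  ext k; rw [res_apply]; split_ifs with hk
  · rfl
  · by_contra hne
    exact hk (h k (fun h0 => hne h0.symm))

lemma res_congr {E F : Finset ℕ+} {x : C00} (h : ∀ k, x k ≠ 0 → (k ∈ E ↔ k ∈ F)) :
    res E x = res F x := by
  ext k
  rw [res_apply, res_apply]
  by_cases hx : x k = 0
  · simp [hx]
  · by_cases hk : k ∈ E
    · rw [if_pos hk, if_pos ((h k hx).1 hk)]
    · rw [if_neg hk, if_neg (fun hF => hk ((h k hx).2 hF))]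

end Pool.MP4a3daa
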