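import Pool.Agent.Lib.MP_4a3daa_an.H90.Tree

namespace Pool.MP4a3daa

open Finset

section

variable {n : ℕ} {N : C00 → ℝ} (h : IsImplicitNorm (n + 1) N)

include h

/-- The first atom. -/
lemma atom_one {S : C00 →ₗ[ℝ] C00} (hM : ∀ x k, S x k ≠ 0 → ∃ i : ℕ, (k : ℕ) = 2 ^ i)
    {C : ℝ} (hC : 0 ≤ C) (hup : ∀ x, N (S x) ≤ C * N x) (c : ℕ) :
    ∃ e x, IsAtom N S 1 (3 * C) c e x := by
  classical
  obtain ⟨l, v, hcl, hv, hav, hN, hS⟩ := basic h S hM (c + 1) 1
  obtain ⟨e0, he0⟩ := exists_bound (S v)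
  have hvne : v.support.Nonempty := by
    rw [Finsupp.support_nonempty_iff]
    rintro rfl
    rw [av_zero h] at hav
    norm_num at hav
  refine ⟨max l e0, v, ⟨?_, ?_⟩, ?_, {c + 2}, fun _ => v.support, ⟨⟨?_, ?_, ?_, ?_⟩, ?_, ?_, ?_, ?_⟩,
    by simp⟩
  · intro k hk
    have := hv k hk
    have := le_max_left l e0
    omega
  · intro k hk
    have := hS k hk
    have := he0 k hk
    have := le_max_right l e0
    omega
  · refine (hup v).trans ?_
    nlinarith
  · exact fun _ _ => hvne
  · intro i hi j hj hij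
    rw [mem_singleton] at hi hj
    omega
  · intro j hj
    rw [mem_singleton] at hj
    omega
  · intro i hi j hj hij
    rw [mem_singleton] at hi hj
    omega
  · exact singleton_nonempty _
  · intro j hj
    rw [mem_singleton] at hj
    have := le_max_left l e0
    omega
  · intro j _ a ha
    have := hv a (Finsupp.mem_support_iff.1 ha)
    have := le_max_left l e0
    omega
  · rw [sum_singleton, res_eq_self (fun k hk => Finsupp.mem_support_iff.2 hk)]
    exact hav

/-- The inductive step for atoms. -/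
lemma atom_succ {S : C00 →ₗ[ℝ] C00} (hM : ∀ x k, S x k ≠ 0 → ∃ i : ℕ, (k : ℕ) = 2 ^ i)
    {C : ℝ} (hC : 0 ≤ C) (hup : ∀ x, N (S x) ≤ C * N x) {ν A : ℝ}
    (hA : 3 * C ≤ A) {M : ℕ} (hM0 : 1 ≤ M) (H : ∀ c, ∃ e x, IsAtom N S ν A c e x) (c : ℕ) :
    ∃ e x, IsAtom N S (ν + 1) (A * (1 + 1 / M)) c e x := by
  classical
  have hA0 : 0 ≤ A := le_trans (by positivity) hA
  have hMpos : (0 : ℝ) < M := by exact_mod_cast hM0
  obtain ⟨l, v, hcl, hv, hav, hN, hSv⟩ := basic h S hM (c + 1) (4 * M)
  obtain ⟨e1, he1⟩ := exists_bound (S v)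
  have hvne : v.support.Nonempty := by
    rw [Finsupp.support_nonempty_iff]
    rintro rfl
    rw [av_zero h] at hav
    norm_num at hav
  set J : ℕ := 4 * M * (l + 1) with hJ
  set e0 : ℕ := max e1 J with he0
  have hle1 : e1 ≤ e0 := le_max_left _ _
  have hJe0 : J ≤ e0 := le_max_right _ _
  have hlJ : l + 1 ≤ J := by
    rw [hJ]
    have : 1 * (l + 1) ≤ 4 * M * (l + 1) := Nat.mul_le_mul_right _ (by omega)
    omega
  have Havg := avg_all h hA0 H n
  -- the copies
  obtain ⟨cl, x, hcl0, hclm, hat⟩ := chain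
    (Pr := fun i c e x => IsAvg N S (n + 1) n ν A (1 / (4 * M) * (1 / 2) ^ (i + 1) / (c + 1)) c e x)
    (by
      intro i c
      obtain ⟨e, x, hx⟩ := Havg c (1 / (4 * M) * (1 / 2) ^ (i + 1) / (c + 1)) (by positivity)
      obtain ⟨I, E, hW, _⟩ := hx.wit
      exact ⟨e, x, hW.le, hx⟩) e0
  set σ : ℕ := l + 1 with hσ
  set X : C00 := ∑ t ∈ range σ, x t with hX
  have hXpos : ∀ k, X k ≠ 0 → e0 < (k : ℕ) ∧ (k : ℕ) ≤ cl σ := by
    have := (Loc.avg hclm (le_of_eq hcl0.symm) (fun i _ => (hat i).loc) (1 : ℝ) (r := σ)).hx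
    simpa only [one_smul] using this
  have hXS : ∀ k, S X k ≠ 0 → e0 < (k : ℕ) ∧ (k : ℕ) ≤ cl σ := by
    have := (Loc.avg hclm (le_of_eq hcl0.symm) (fun i _ => (hat i).loc) (1 : ℝ) (r := σ)).hS
    simpa only [one_smul] using this
  have hcσ : e0 ≤ cl σ := by rw [← hcl0]; exact hclm (Nat.zero_le _)
  -- the value of each copy
  have hval : ∀ t, ν ≤ N (x t) := by
    intro t
    obtain ⟨I, E, hW, hs⟩ := (hat t).wit
    exact hW.val.trans (lower h hW.fam hs (x t))
  -- positions of the copies
  let F : ℕ → Finset ℕ+ := fun t => (x t).support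
  have hFS : Succ (range σ) F := by
    intro p _ q _ hpq a ha b hb
    have a1 := (hat p).loc.hx a (Finsupp.mem_support_iff.1 ha)
    have a2 := (hat q).loc.hx b (Finsupp.mem_support_iff.1 hb)
    have a3 := hclm (show p + 1 ≤ q from hpq)
    have : (a : ℕ) < (b : ℕ) := by omega
    exact this
  -- the second value
  have hsecond : ν ≤ avgN N σ X := by
    refine le_trans ?_ (le_av h (j := σ) (y := X) (D := range σ) (F := F)
      (by rw [card_range]) hFS)
    have hterm : ∀ t ∈ range σ, ν ≤ N (res (F t) X) := by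
      intro t ht
      have : res (F t) X = x t := by
        rw [hX, res_sum, sum_eq_single_of_mem t ht]
        · exact res_eq_self (fun k hk => Finsupp.mem_support_iff.2 hk)
        · intro t' ht' hne
          refine res_eq_zero fun k hk => ?_
          by_contra hne0
          have a1 := (hat t').loc.hx k hne0
          have a2 := (hat t).loc.hx k (Finsupp.mem_support_iff.1 hk)
          exact hne (same_block hclm a1.1 a1.2 a2.1 a2.2)
      rw [this]
      exact hval t
    have hsum := sum_le_sum hterm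
    rw [sum_const, card_range, nsmul_eq_mul] at hsum
    have hσ0 : (0 : ℝ) < σ := by rw [hσ]; positivity
    rw [one_div, le_inv_mul_iff₀ hσ0]
    exact hsum
  have hcσ' : e0 < cl σ := by
    obtain ⟨I, E, hW, _⟩ := (hat 0).wit
    obtain ⟨j, hj⟩ := hW.ne
    have a1 := hW.idx j hj
    have a2 := hclm (show 0 + 1 ≤ σ by omega)
    rw [hcl0] at a1
    omega
  let E2 : Finset ℕ+ := insert ⟨e0 + 1, by omega⟩ X.support
  have hE2 : ∀ a ∈ E2, e0 < (a : ℕ) ∧ (a : ℕ) ≤ cl σ := by
    intro a ha
    rcases mem_insert.1 ha with rfl | ha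
    · simp only [PNat.mk_coe]; omega
    · exact hXpos a (Finsupp.mem_support_iff.1 ha)
  have hv0 : ∀ k ∈ E2, v k = 0 := by
    intro k hk
    by_contra hne
    have a1 := hv k hne
    have a2 := hE2 k hk
    omega
  have hX0 : ∀ k ∈ v.support, X k = 0 := by
    intro k hk
    by_contra hne
    have a1 := hv k (Finsupp.mem_support_iff.1 hk)
    have a2 := hXpos k hne
    omega
  have hr1 : res v.support (v + X) = v := by
    rw [res_add, res_eq_self (fun k hk => Finsupp.mem_support_iff.2 hk), res_eq_zero hX0, add_zero]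
  have hr2 : res E2 (v + X) = X := by
    rw [res_add, res_eq_zero hv0, zero_add]
    exact res_eq_self (fun k hk => mem_insert_of_mem (Finsupp.mem_support_iff.2 hk))
  have hcσ2 : c + 2 < σ := by omega
  refine ⟨cl σ, v + X, ⟨?_, ?_⟩, ?_, {c + 2, σ}, fun j => if j = c + 2 then v.support else E2,
    ⟨⟨?_, ?_, ?_, ?_⟩, ?_, ?_, ?_, ?_⟩, card_le_two⟩
  · intro k hk
    rw [Finsupp.add_apply] at hk
    by_cases hvk : v k = 0
    · have hXk : X k ≠ 0 := by rw [hvk, zero_add] at hk; exact hk
      have := hXpos k hXk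
      omega
    · have := hv k hvk
      omega
  · intro k hk
    rw [map_add, Finsupp.add_apply] at hk
    by_cases hvk : S v k = 0
    · have hXk : S X k ≠ 0 := by rw [hvk, zero_add] at hk; exact hk
      have := hXS k hXk
      omega
    · have a1 := hSv k hvk
      have a2 := he1 k hvk
      omega
  · -- the upper bound
    let Z : ℕ → C00 := fun a => Nat.casesOn a (S v) (fun t => S (x t))
    have hZ0 : Z 0 = S v := rfl
    have hZs : ∀ t, Z (t + 1) = S (x t) := fun _ => rfl
    have hsum : S (v + X) = ∑ a ∈ range (σ + 1), Z a := by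
      rw [sum_range_succ', hZ0, map_add, hX, map_sum, add_comm]
    let ε : ℕ → ℝ := fun a => A * (1 / J + 1 / (4 * M) * (1 / 2) ^ a)
    have hbound := block_sum h (K := σ + 1) (Z := Z) (y := cl) (A := A) (J := J) (ε := ε) hA0
      (by
        intro a ha
        rcases Nat.eq_zero_or_pos a with rfl | hpos
        · rw [hZ0]
          refine (hup v).trans ?_
          nlinarith
        · obtain ⟨t, rfl⟩ : ∃ t, a = t + 1 := ⟨a - 1, by omega⟩
          rw [hZs]
          exact (hat t).bound)
      (fun a => by simp only [ε]; positivity)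
      (by
        intro a ha k hk
        rcases Nat.eq_zero_or_pos a with rfl | hpos
        · rw [hZ0] at hk
          exact hSv k hk
        · obtain ⟨t, rfl⟩ : ∃ t, a = t + 1 := ⟨a - 1, by omega⟩
          rw [hZs] at hk
          have a1 := (hat t).loc.hS k hk
          have a2 := hclm (Nat.zero_le t)
          omega)
      (by
        intro a ha k hk
        rcases Nat.eq_zero_or_pos a with rfl | hpos
        · rw [hZ0] at hk
          rw [hcl0]
          exact (he1 k hk).trans hle1
        · obtain ⟨t, rfl⟩ : ∃ t, a = t + 1 := ⟨a - 1, by omega⟩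
          rw [hZs] at hk
          exact ((hat t).loc.hS k hk).2)
      (by
        intro a ha b hb hab k hk
        obtain ⟨t, rfl⟩ : ∃ t, b = t + 1 := ⟨b - 1, by omega⟩
        rw [hZs] at hk
        have a1 := (hat t).loc.hS k hk
        have a2 := hclm (show a ≤ t by omega)
        omega)
      (by
        intro a ha b hb I E hF hAdm hIJ hcov
        obtain ⟨t, rfl⟩ : ∃ t, a = t + 1 := ⟨a - 1, by omega⟩
        rw [hZs]
        refine ((hat t).pp I E hF hAdm J (by omega) hIJ (cl b) hcov).trans ?_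
        simp only [ε]
        refine mul_le_mul_of_nonneg_left ?_ hA0
        have a2 : (cl b : ℝ) ≤ cl t := by exact_mod_cast hclm (show b ≤ t by omega)
        have a3 : (0 : ℝ) < (cl t : ℝ) + 1 := by positivity
        have a4 : 1 / (4 * (M : ℝ)) * (1 / 2) ^ (t + 1) / ((cl t : ℝ) + 1) * (cl b : ℝ) ≤
            1 / (4 * (M : ℝ)) * (1 / 2) ^ (t + 1) := by
          rw [div_mul_eq_mul_div, div_le_iff₀ a3]
          refine mul_le_mul_of_nonneg_left (by linarith) (by positivity)
        linarith)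
    rw [← hsum] at hbound
    refine hbound.trans ?_
    have hgeo : ∀ σ' : ℕ, ∑ t ∈ range σ', ((1 : ℝ) / 2) ^ (t + 1) = 1 - (1 / 2) ^ σ' := by
      intro σ'
      induction σ' with
      | zero => simp
      | succ s ih => rw [sum_range_succ, ih, pow_succ]; ring
    have hsumε : ∑ a ∈ (range (σ + 1)).erase 0, ε a ≤ A * (1 / (2 * M)) := by
      have e1 : ∑ a ∈ (range (σ + 1)).erase 0, ε a = ∑ t ∈ range σ, ε (t + 1) := by
        have := sum_erase_add (range (σ + 1)) ε (mem_range.2 (Nat.succ_pos σ))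
        rw [sum_range_succ'] at this
        linarith
      rw [e1]
      simp only [ε]
      rw [← mul_sum, sum_add_distrib, ← mul_sum, hgeo, sum_const, card_range, nsmul_eq_mul]
      refine mul_le_mul_of_nonneg_left ?_ hA0
      have e2 : (σ : ℝ) * (1 / (J : ℝ)) = 1 / (4 * M) := by
        rw [hJ, hσ]
        push_cast
        have : (l : ℝ) + 1 ≠ 0 := by positivity
        field_simp
      rw [e2]
      have e3 : (0 : ℝ) ≤ (1 / 2) ^ σ := by positivity
      have e4 : (0 : ℝ) ≤ 1 / (4 * (M : ℝ)) := by positivity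
      have e5 : (1 : ℝ) / (2 * M) = 1 / (4 * M) + 1 / (4 * M) := by field_simp; norm_num
      rw [e5]
      nlinarith
    have : A * (1 + 1 / (M : ℝ)) = A + 2 * (A * (1 / (2 * M))) := by field_simp
    rw [this]
    linarith
  · intro j _
    split_ifs
    · exact hvne
    · exact ⟨_, mem_insert_self _ _⟩
  · intro i hi j hj hij a ha b hb
    rw [mem_insert, mem_singleton] at hi hj
    have hi' : i = c + 2 := by omega
    have hj' : ¬ (j = c + 2) := by omega
    simp only [hi', hj', if_true, if_false] at ha hb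
    have a1 := hv a (Finsupp.mem_support_iff.1 ha)
    have a2 := hE2 b hb
    have : (a : ℕ) < (b : ℕ) := by omega
    exact this
  · intro j hj
    rw [mem_insert, mem_singleton] at hj
    omega
  · intro i hi j hj hij a ha
    rw [mem_insert, mem_singleton] at hi hj
    have hi' : i = c + 2 := by omega
    simp only [hi', if_true] at ha
    have a1 := hv a (Finsupp.mem_support_iff.1 ha)
    omega
  · exact ⟨_, mem_insert_self _ _⟩
  · intro j hj
    rw [mem_insert, mem_singleton] at hj
    omega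
  · intro j hj a ha
    by_cases hjc : j = c + 2
    · simp only [hjc, if_true] at ha
      have a1 := hv a (Finsupp.mem_support_iff.1 ha)
      omega
    · simp only [hjc, if_false] at ha
      have a1 := hE2 a ha
      omega
  · rw [sum_pair hcσ2.ne]
    have hσc : ¬ (σ = c + 2) := by omega
    simp only [if_true, hσc, if_false]
    rw [hr1, hr2]
    have : c + 1 + 1 = c + 2 := by ring
    rw [this] at hav
    linarith

/-- There is no embedding onto a sparse part. -/
theorem no_sparse {S : C00 →ₗ[ℝ] C00} (hM : ∀ x k, S x k ≠ 0 → ∃ i : ℕ, (k : ℕ) = 2 ^ i)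
    {C δ : ℝ} (hδ : 0 < δ) (hup : ∀ x, N (S x) ≤ C * N x)
    (hlow : ∀ x, δ * N x ≤ N (S x)) : False := by
  classical
  have hC : 0 ≤ C := by
    have h1 := hup (Finsupp.single 1 1)
    rw [N_single h] at h1
    have h2 := N_nonneg h (S (Finsupp.single 1 1))
    simp at h1
    linarith
  obtain ⟨M0, hM0⟩ := exists_nat_gt (9 * C / δ)
  set M : ℕ := M0 + 1 with hMdef
  have hM1 : 1 ≤ M := by omega
  have hMpos : (0 : ℝ) < M := by exact_mod_cast hM1
  have hMC : 9 * C < δ * M := by
    rw [div_lt_iff₀ hδ] at hM0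
    have : (M : ℝ) = M0 + 1 := by rw [hMdef]; push_cast; ring
    rw [this]
    nlinarith
  have hone : (1 : ℝ) ≤ 1 + 1 / M := by
    have : (0 : ℝ) ≤ 1 / M := by positivity
    linarith
  have hatoms : ∀ ν : ℕ, ∀ c, ∃ e x, IsAtom N S ((ν : ℝ) + 1) (3 * C * (1 + 1 / M) ^ ν) c e x := by
    intro ν
    induction ν with
    | zero =>
      intro c
      have := atom_one h hM hC hup c
      simpa using this
    | succ ν ih =>
      intro c
      have h1 : 3 * C ≤ 3 * C * (1 + 1 / (M : ℝ)) ^ ν :=
        le_mul_of_one_le_right (by positivity) (one_le_pow₀ hone)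
      have := atom_succ h hM hC hup (ν := (ν : ℝ) + 1) h1 hM1 ih c
      rw [pow_succ, ← mul_assoc]
      push_cast
      exact this
  have hexp : (1 + 1 / (M : ℝ)) ^ M ≤ 3 := by
    have h1 : 1 + 1 / (M : ℝ) ≤ Real.exp (1 / M) := by
      have := Real.add_one_le_exp (1 / (M : ℝ))
      linarith
    have h2 : (1 + 1 / (M : ℝ)) ^ M ≤ (Real.exp (1 / M)) ^ M :=
      pow_le_pow_left₀ (by positivity) h1 M
    rw [← Real.exp_nat_mul, mul_one_div_cancel hMpos.ne'] at h2
    exact h2.trans (by have := Real.exp_one_lt_d9; linarith)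
  have hA0 : (0 : ℝ) ≤ 3 * C * (1 + 1 / M) ^ M := by positivity
  obtain ⟨e, x, hx⟩ := avg_all h hA0 (hatoms M) n 0 1 one_pos
  obtain ⟨I, E, hW, hs⟩ := hx.wit
  have h1 : (M : ℝ) + 1 ≤ N x := hW.val.trans (lower h hW.fam hs x)
  have h2 := hlow x
  have h3 := hx.bound
  have h4 : 3 * C * (1 + 1 / (M : ℝ)) ^ M ≤ 3 * C * 3 :=
    mul_le_mul_of_nonneg_left hexp (by positivity)
  have h5 : δ * (M : ℝ) ≤ δ * N x := mul_le_mul_of_nonneg_left (by linarith) hδ.le
  linarith

end

end Pool.MP4a3daa
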