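import Pool.Agent.Lib.MP_4a3daa_an.H90.Block

namespace Pool.MP4a3daa

open Finset

lemma exists_null (S : C00 →ₗ[ℝ] C00) (P T : Finset ℕ+) (hcard : T.card < P.card) :
    ∃ w : C00, w ≠ 0 ∧ (∀ k, w k ≠ 0 → k ∈ P) ∧ ∀ m ∈ T, S w m = 0 := by
  classical
  let e : (P → ℝ) →ₗ[ℝ] C00 :=
    ∑ p : P, (Finsupp.lsingle (p : ℕ+) : ℝ →ₗ[ℝ] C00).comp (LinearMap.proj p)
  have he : ∀ (c : P → ℝ) (k : ℕ+), e c k = if hk : k ∈ P then c ⟨k, hk⟩ else 0 := by
    intro c k
    have h1 : e c = ∑ p : P, Finsupp.single (p : ℕ+) (c p) := by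
      simp only [e, LinearMap.sum_apply, LinearMap.comp_apply, LinearMap.proj_apply,
        Finsupp.lsingle_apply]
    rw [h1, Finsupp.finsetSum_apply]
    split_ifs with hk
    · rw [sum_eq_single_of_mem (⟨k, hk⟩ : P) (mem_univ _)]
      · simp
      · intro b _ hb
        rw [Finsupp.single_apply, if_neg]
        intro hh
        exact hb (Subtype.ext hh)
    · refine sum_eq_zero fun p _ => ?_
      rw [Finsupp.single_apply, if_neg]
      rintro rfl
      exact hk p.2
  let f : (P → ℝ) →ₗ[ℝ] (T → ℝ) :=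
    LinearMap.pi fun m : T => (Finsupp.lapply (m : ℕ+)).comp (S.comp e)
  have hker : LinearMap.ker f ≠ ⊥ := by
    refine LinearMap.ker_ne_bot_of_finrank_lt ?_
    rw [Module.finrank_fintype_fun_eq_card, Module.finrank_fintype_fun_eq_card, Fintype.card_coe,
      Fintype.card_coe]
    exact hcard
  obtain ⟨c, hc, hc0⟩ := (Submodule.ne_bot_iff _).1 hker
  refine ⟨e c, ?_, ?_, ?_⟩
  · intro h0
    apply hc0
    ext p
    have := he c p
    rw [h0, dif_pos p.2] at this
    simpa using this.symm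
  · intro k hk
    by_contra hkP
    exact hk (by rw [he, dif_neg hkP])
  · intro m hm
    have := congrFun (LinearMap.mem_ker.1 hc) ⟨m, hm⟩
    simpa [f] using this

lemma exists_null' (S : C00 →ₗ[ℝ] C00) (P T : Finset ℕ+) (hcard : T.card < P.card) :
    ∃ w : C00, (∀ k, |w k| ≤ 1) ∧ (∃ k, |w k| = 1) ∧ (∀ k, w k ≠ 0 → k ∈ P) ∧
      ∀ m ∈ T, S w m = 0 := by
  classical
  obtain ⟨w, hw0, hwP, hwT⟩ := exists_null S P T hcard
  have hne : w.support.Nonempty := Finsupp.support_nonempty_iff.2 hw0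
  obtain ⟨k0, hk0, hmax⟩ := exists_max_image w.support (fun k => |w k|) hne
  have hpos : 0 < |w k0| := abs_pos.2 (Finsupp.mem_support_iff.1 hk0)
  refine ⟨(|w k0|)⁻¹ • w, ?_, ⟨k0, ?_⟩, ?_, ?_⟩
  · intro k
    rw [Finsupp.smul_apply, smul_eq_mul, abs_mul, abs_inv, abs_abs]
    rw [inv_mul_le_iff₀ hpos, mul_one]
    by_cases hk : w k = 0
    · rw [hk, abs_zero]; exact hpos.le
    · exact hmax k (Finsupp.mem_support_iff.2 hk)
  · rw [Finsupp.smul_apply, smul_eq_mul, abs_mul, abs_inv, abs_abs]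
    exact inv_mul_cancel₀ hpos.ne'
  · intro k hk
    refine hwP k fun h0 => hk ?_
    rw [Finsupp.smul_apply, h0, smul_zero]
  · intro m hm
    rw [map_smul, Finsupp.smul_apply, hwT m hm, smul_zero]

lemma exists_bound (x : C00) : ∃ e : ℕ, ∀ k, x k ≠ 0 → (k : ℕ) ≤ e := by
  refine ⟨x.support.sup (fun k => (k : ℕ)), fun k hk => ?_⟩
  exact le_sup (f := fun k : ℕ+ => (k : ℕ)) (Finsupp.mem_support_iff.2 hk)

lemma exists_scale (c q : ℕ) : ∃ s : ℕ, (c + 1) * (q + s + 3) ≤ 2 ^ s ∧ c ≤ 2 ^ s := by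
  refine ⟨2 * (c + q + 5), ?_, ?_⟩
  · have h1 : c + 1 ≤ 2 ^ (c + q + 5) := by
      have := (Nat.lt_two_pow_self (n := c + q + 5)).le
      omega
    have h2 : q + 2 * (c + q + 5) + 3 ≤ 2 ^ (c + q + 5) := by
      have h3 : c + q + 3 + 1 ≤ 2 ^ (c + q + 3) := Nat.lt_two_pow_self (n := c + q + 3)
      have h4 : 2 ^ (c + q + 5) = 4 * 2 ^ (c + q + 3) := by
        rw [show c + q + 5 = (c + q + 3) + 2 by ring, pow_add]; ring
      omega
    have h5 : 2 ^ (2 * (c + q + 5)) = 2 ^ (c + q + 5) * 2 ^ (c + q + 5) := by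
      rw [two_mul, pow_add]
    rw [h5]
    exact Nat.mul_le_mul h1 h2
  · have h1 : c ≤ 2 * (c + q + 5) := by omega
    exact h1.trans (Nat.lt_two_pow_self).le

section

variable {n : ℕ} {N : C00 → ℝ} (h : IsImplicitNorm (n + 1) N)

include h

/-- A vector with coordinates at most `1` and support in `(L, 2L]` has norm at most `3`. -/
lemma N_le_three {L : ℕ} {v : C00} (h1 : ∀ k, |v k| ≤ 1)
    (hs : ∀ k, v k ≠ 0 → L < (k : ℕ) ∧ (k : ℕ) ≤ 2 * L) : N v ≤ 3 := by
  classical
  let pos : ℕ → ℕ+ := fun a => ⟨L + 1 + a, by omega⟩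
  let Z : ℕ → C00 := fun a => Finsupp.single (pos a) (v (pos a))
  have hZ : ∀ a k, Z a k ≠ 0 → (k : ℕ) = L + 1 + a := by
    intro a k hk
    simp only [Z, Finsupp.single_apply] at hk
    by_cases hh : pos a = k
    · rw [← hh]; rfl
    · rw [if_neg hh] at hk; exact absurd rfl hk
  have hv : v = ∑ a ∈ range L, Z a := by
    ext k
    rw [Finsupp.finsetSum_apply]
    by_cases hk : v k = 0
    · rw [hk]
      symm
      refine sum_eq_zero fun a _ => ?_
      simp only [Z, Finsupp.single_apply]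
      split_ifs with hh
      · rw [hh]; exact hk
      · rfl
    · obtain ⟨hk1, hk2⟩ := hs k hk
      have hka : pos ((k : ℕ) - L - 1) = k := by
        apply PNat.coe_injective
        simp only [pos, PNat.mk_coe]
        omega
      rw [sum_eq_single_of_mem ((k : ℕ) - L - 1) (mem_range.2 (by omega))]
      · simp only [Z]
        rw [hka, Finsupp.single_eq_same]
      · intro b _ hb
        by_contra hne
        have := hZ b k hne
        omega
  have key := block_sum h (K := L) (Z := Z) (y := fun a => L + 1 + a) (A := 1) (J := L + 1)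
    (ε := fun _ => 1 / ((L + 1 : ℕ) : ℝ)) zero_le_one
    (fun a _ => by simp only [Z]; rw [N_single h]; exact h1 _)
    (fun _ => by positivity)
    (fun a _ k hk => by have := hZ a k hk; omega)
    (fun a _ k hk => (hZ a k hk).le)
    (fun a _ b _ hab k hk => by have := hZ b k hk; omega)
    (fun a _ b _ I E hF _ hJ _ => by
      refine (fam_sum_single_le h hF (pos a) (v (pos a)) (by omega) hJ).trans ?_
      rw [N_single h]
      exact mul_le_of_le_one_right (by positivity) (h1 _))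
  rw [← hv] at key
  refine key.trans ?_
  rw [sum_const, nsmul_eq_mul]
  have hc : (((range L).erase 0).card : ℝ) ≤ ((L + 1 : ℕ) : ℝ) := by
    have : ((range L).erase 0).card ≤ L + 1 := by
      refine (card_le_card (erase_subset _ _)).trans ?_
      rw [card_range]; omega
    exact_mod_cast this
  have hL : (0 : ℝ) < ((L + 1 : ℕ) : ℝ) := by positivity
  have : (((range L).erase 0).card : ℝ) * (1 / ((L + 1 : ℕ) : ℝ)) ≤ 1 := by
    rw [mul_one_div, div_le_one hL]
    exact hc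
  linarith

/-- The basic vector. -/
lemma basic (S : C00 →ₗ[ℝ] C00) (hM : ∀ x k, S x k ≠ 0 → ∃ i : ℕ, (k : ℕ) = 2 ^ i)
    (c Q : ℕ) :
    ∃ (l : ℕ) (v : C00), c < l ∧ (∀ k, v k ≠ 0 → c < (k : ℕ) ∧ (k : ℕ) ≤ l) ∧
      1 ≤ avgN N (c + 1) v ∧ N v ≤ 3 ∧ ∀ k, S v k ≠ 0 → Q * (l + 1) ≤ (k : ℕ) := by
  classical
  obtain ⟨s, hs1, hs2⟩ := exists_scale c Q
  set L : ℕ := 2 ^ s with hL
  set t : ℕ := Q + s + 2 with ht
  let T : Finset ℕ+ := (range t).image (fun i => (⟨2 ^ i, by positivity⟩ : ℕ+))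
  have hT : T.card ≤ t := card_image_le.trans (by rw [card_range])
  let P : ℕ → Finset ℕ+ := fun g =>
    (range (t + 1)).image (fun i => (⟨L + g * (t + 1) + i + 1, by omega⟩ : ℕ+))
  have hPmem : ∀ g k, k ∈ P g ↔ L + g * (t + 1) < (k : ℕ) ∧ (k : ℕ) ≤ L + g * (t + 1) + (t + 1) := by
    intro g k
    simp only [P, mem_image, mem_range]
    constructor
    · rintro ⟨i, hi, rfl⟩
      simp only [PNat.mk_coe]
      omega
    · rintro ⟨h1, h2⟩
      refine ⟨(k : ℕ) - (L + g * (t + 1)) - 1, by omega, ?_⟩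
      apply PNat.coe_injective
      simp only [PNat.mk_coe]
      omega
  have hPcard : ∀ g, (P g).card = t + 1 := by
    intro g
    simp only [P]
    rw [card_image_of_injective, card_range]
    intro i j hij
    have := congrArg (fun x : ℕ+ => (x : ℕ)) hij
    simp only [PNat.mk_coe] at this
    omega
  have hex : ∀ g, ∃ w : C00, (∀ k, |w k| ≤ 1) ∧ (∃ k, |w k| = 1) ∧ (∀ k, w k ≠ 0 → k ∈ P g) ∧
      ∀ m ∈ T, S w m = 0 := by
    intro g
    exact exists_null' S (P g) T (by rw [hPcard]; omega)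
  choose w hw1 hw2 hw3 hw4 using hex
  have hPdisj : ∀ g g' k, k ∈ P g → k ∈ P g' → g = g' := by
    intro g g' k hk hk'
    obtain ⟨a1, a2⟩ := (hPmem g k).1 hk
    obtain ⟨b1, b2⟩ := (hPmem g' k).1 hk'
    by_contra hne
    rcases lt_or_gt_of_ne hne with hlt | hlt
    · have : (g + 1) * (t + 1) ≤ g' * (t + 1) := Nat.mul_le_mul_right _ hlt
      rw [add_mul, one_mul] at this
      omega
    · have : (g' + 1) * (t + 1) ≤ g * (t + 1) := Nat.mul_le_mul_right _ hlt
      rw [add_mul, one_mul] at this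
      omega
  set v : C00 := ∑ g ∈ range (c + 1), w g with hv
  have hvk : ∀ k, v k ≠ 0 → ∃ g ∈ range (c + 1), k ∈ P g ∧ v k = w g k := by
    intro k hk
    rw [hv, Finsupp.finsetSum_apply] at hk
    obtain ⟨g, hg, hgk⟩ := exists_ne_zero_of_sum_ne_zero hk
    refine ⟨g, hg, hw3 g k hgk, ?_⟩
    rw [hv, Finsupp.finsetSum_apply, sum_eq_single_of_mem g hg]
    intro b _ hb
    by_contra hne
    exact hb (hPdisj b g k (hw3 b k hne) (hw3 g k hgk))
  have hPL : ∀ g ∈ range (c + 1), ∀ k ∈ P g, L < (k : ℕ) ∧ (k : ℕ) ≤ 2 * L := by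
    intro g hg k hk
    obtain ⟨a1, a2⟩ := (hPmem g k).1 hk
    have hgc : g + 1 ≤ c + 1 := mem_range.1 hg
    have h1 : (g + 1) * (t + 1) ≤ (c + 1) * (t + 1) := Nat.mul_le_mul_right _ hgc
    have h2 : (c + 1) * (t + 1) ≤ L := by
      have : t + 1 = Q + s + 3 := by omega
      rw [this]; exact hs1
    rw [add_mul, one_mul] at h1
    constructor
    · omega
    · omega
  have hvs : ∀ k, v k ≠ 0 → L < (k : ℕ) ∧ (k : ℕ) ≤ 2 * L := by
    intro k hk
    obtain ⟨g, hg, hkg, _⟩ := hvk k hk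
    exact hPL g hg k hkg
  have hv1 : ∀ k, |v k| ≤ 1 := by
    intro k
    by_cases hk : v k = 0
    · rw [hk]; simp
    · obtain ⟨g, _, _, hvg⟩ := hvk k hk
      rw [hvg]; exact hw1 g k
  have hLpos : 0 < L := by positivity
  refine ⟨2 * L, v, by omega, fun k hk => ⟨by have := (hvs k hk).1; omega, (hvs k hk).2⟩, ?_,
    N_le_three h hv1 hvs, ?_⟩
  · -- the average
    have hS : Succ (range (c + 1)) P := by
      intro p _ q _ hpq a ha b hb
      obtain ⟨a1, a2⟩ := (hPmem p a).1 ha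
      obtain ⟨b1, b2⟩ := (hPmem q b).1 hb
      have : (p + 1) * (t + 1) ≤ q * (t + 1) := Nat.mul_le_mul_right _ hpq
      rw [add_mul, one_mul] at this
      have h3 : (a : ℕ) < (b : ℕ) := by omega
      exact h3
    refine le_trans ?_ (le_av h (j := c + 1) (y := v) (D := range (c + 1)) (F := P)
      (by rw [card_range]) hS)
    have hterm : ∀ g ∈ range (c + 1), (1 : ℝ) ≤ N (res (P g) v) := by
      intro g hg
      obtain ⟨k, hk⟩ := hw2 g
      have hkne : w g k ≠ 0 := by
        intro h0; rw [h0] at hk; simp at hk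
      have hkP := hw3 g k hkne
      refine le_trans (le_of_eq ?_) (abs_le_N h (res (P g) v) k)
      rw [res_apply, if_pos hkP, hv, Finsupp.finsetSum_apply, sum_eq_single_of_mem g hg, hk]
      intro b _ hb
      by_contra hne
      exact hb (hPdisj b g k (hw3 b k hne) hkP)
    have hsum : ((c + 1 : ℕ) : ℝ) ≤ ∑ g ∈ range (c + 1), N (res (P g) v) := by
      have := sum_le_sum hterm
      rw [sum_const, card_range, nsmul_eq_mul, mul_one] at this
      exact this
    have hc0 : (0 : ℝ) < ((c + 1 : ℕ) : ℝ) := by positivity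
    rw [one_div, le_inv_mul_iff₀ hc0, mul_one]
    exact hsum
  · intro k hk
    obtain ⟨i, hi⟩ := hM v k hk
    by_contra hlt
    push Not at hlt
    have hit : i < t := by
      by_contra hcon
      push Not at hcon
      have h1 : 2 ^ t ≤ 2 ^ i := Nat.pow_le_pow_right (by norm_num) hcon
      have h2 : 2 ^ t = 2 ^ Q * (4 * L) := by
        rw [ht, hL, show Q + s + 2 = Q + (2 + s) by ring, pow_add, pow_add]; norm_num
      have h3 : Q ≤ 2 ^ Q := (Nat.lt_two_pow_self).le
      have h4 : Q * (2 * L + 1) ≤ 2 ^ Q * (4 * L) := Nat.mul_le_mul h3 (by omega)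
      omega
    have hkT : k ∈ T := by
      refine mem_image.2 ⟨i, mem_range.2 hit, ?_⟩
      apply PNat.coe_injective
      rw [PNat.mk_coe, hi]
    apply hk
    rw [hv, map_sum, Finsupp.finsetSum_apply]
    exact sum_eq_zero fun g _ => hw4 g k hkT

end

end Pool.MP4a3daa
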