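import Pool.Agent.Lib.MP_4a3daa_an.H90.Final

namespace Pool.MP4a3daa

open Finset

/-- the positions which are powers of two -/
def powSet : Set ℕ+ := {k | ∃ i : ℕ, (k : ℕ) = 2 ^ i}

lemma sum_half_le (s : Finset ℕ+) : ∑ k ∈ s, ((1 : ℝ) / 2) ^ (k : ℕ) ≤ 2 := by
  classical
  have h1 : ∑ k ∈ s, ((1 : ℝ) / 2) ^ (k : ℕ) =
      ∑ i ∈ s.image (fun k : ℕ+ => (k : ℕ)), ((1 : ℝ) / 2) ^ i := by
    rw [sum_image]
    intro a _ b _ hab
    exact PNat.coe_injective hab
  rw [h1]
  refine le_trans (sum_le_sum_of_subset_of_nonneg (t := range ((s.image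
    (fun k : ℕ+ => (k : ℕ))).sup id + 1)) ?_ (fun _ _ _ => by positivity)) ?_
  · intro i hi
    have : i ≤ (s.image (fun k : ℕ+ => (k : ℕ))).sup id := le_sup (f := id) hi
    exact mem_range.2 (by omega)
  · simpa using sum_geometric_two_le (((s.image (fun k : ℕ+ => (k : ℕ))).sup id) + 1)

theorem not_minimal {n : ℕ} {X : Type*} [NormedAddCommGroup X] [NormedSpace ℝ X]
    (ι : C00 →ₗ[ℝ] X) (hι : IsImplicitNorm (n + 1) (fun x => ‖ι x‖))
    (hmin : ∀ Y : Submodule ℝ X, IsClosed (Y : Set X) → ¬ FiniteDimensional ℝ Y →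
      ∃ Z : Submodule ℝ X, Z ≤ Y ∧ Nonempty (X ≃L[ℝ] Z)) : False := by
  classical
  let W : Submodule ℝ C00 := Finsupp.supported ℝ ℝ powSet
  let Y : Submodule ℝ X := (W.map ι).topologicalClosure
  have hinj : Function.Injective ι := by
    rw [injective_iff_map_eq_zero]
    intro x hx
    ext k
    have := abs_le_N hι x k
    simp only [hx, norm_zero] at this
    simpa using le_antisymm this (abs_nonneg _)
  have hYinf : ¬ FiniteDimensional ℝ Y := by
    intro hfin
    let f : ℕ → Y := fun i => ⟨ι (Finsupp.single ⟨2 ^ i, by positivity⟩ 1),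
      Submodule.le_topologicalClosure _ (Submodule.mem_map_of_mem (by
        simp only [W]
        exact Finsupp.single_mem_supported ℝ 1 (show _ ∈ powSet from ⟨i, rfl⟩)))⟩
    have hlin : LinearIndependent ℝ f := by
      have h1 : LinearIndependent ℝ (fun i : ℕ => (Finsupp.single (⟨2 ^ i, by positivity⟩ : ℕ+)
          (1 : ℝ) : C00)) := by
        have h2 := (Finsupp.basisSingleOne (R := ℝ) (ι := ℕ+)).linearIndependent
        have h3 := h2.comp (fun i : ℕ => (⟨2 ^ i, by positivity⟩ : ℕ+)) (by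
          intro a b hab
          have := congrArg (fun x : ℕ+ => (x : ℕ)) hab
          simp only [PNat.mk_coe] at this
          exact Nat.pow_right_injective (le_refl 2) this)
        simpa [Function.comp_def] using h3
      have h4 := h1.map' ι (LinearMap.ker_eq_bot.2 hinj)
      refine LinearIndependent.of_comp Y.subtype ?_
      exact h4
    have := hlin.finite
    exact not_finite ℕ
  obtain ⟨Z, hZY, ⟨T⟩⟩ := hmin Y (Submodule.isClosed_topologicalClosure _) hYinf
  set B : ℝ := ‖(T.symm : Z →L[ℝ] X)‖ + 1 with hB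
  have hBpos : 0 < B := by positivity
  have hlowT : ∀ x : X, ‖x‖ ≤ B * ‖((T x : Z) : X)‖ := by
    intro x
    have h1 : ‖T.symm (T x)‖ ≤ ‖(T.symm : Z →L[ℝ] X)‖ * ‖T x‖ :=
      (T.symm : Z →L[ℝ] X).le_opNorm (T x)
    rw [T.symm_apply_apply] at h1
    have h2 : ‖T x‖ = ‖((T x : Z) : X)‖ := rfl
    rw [h2] at h1
    have h3 := norm_nonneg ((T x : Z) : X)
    rw [hB, add_mul]
    linarith
  have hupT : ∀ x : X, ‖((T x : Z) : X)‖ ≤ ‖(T : X →L[ℝ] Z)‖ * ‖x‖ := by
    intro x
    exact (T : X →L[ℝ] Z).le_opNorm x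
  set η : ℝ := 1 / (4 * B) with hη
  have hηpos : 0 < η := by positivity
  -- approximation of the images of the unit vectors
  have happ : ∀ k : ℕ+, ∃ w ∈ W, ‖((T (ι (Finsupp.single k 1)) : Z) : X) - ι w‖ ≤
      η * (1 / 2) ^ (k : ℕ) := by
    intro k
    have hmem : ((T (ι (Finsupp.single k 1)) : Z) : X) ∈ closure ((W.map ι : Submodule ℝ X) : Set X) := by
      have := hZY (T (ι (Finsupp.single k 1)) : Z).2
      exact this
    obtain ⟨b, hb, hd⟩ := Metric.mem_closure_iff.1 hmem (η * (1 / 2) ^ (k : ℕ)) (by positivity)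
    obtain ⟨w, hw, rfl⟩ := hb
    exact ⟨w, hw, by rw [← dist_eq_norm]; exact hd.le⟩
  choose w hwW hw using happ
  let S : C00 →ₗ[ℝ] C00 := Finsupp.linearCombination ℝ w
  have hS : ∀ x : C00, S x = ∑ k ∈ x.support, x k • w k := by
    intro x
    simp only [S, Finsupp.linearCombination_apply, Finsupp.sum]
  have hSW : ∀ x, S x ∈ W := by
    intro x
    rw [hS]
    exact Submodule.sum_mem _ (fun k _ => Submodule.smul_mem _ _ (hwW k))
  have hM : ∀ x k, S x k ≠ 0 → ∃ i : ℕ, (k : ℕ) = 2 ^ i := by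
    intro x k hk
    have := (Finsupp.mem_supported ℝ (S x)).1 (hSW x)
    exact this (Finsupp.mem_support_iff.2 hk)
  have hdiff : ∀ x : C00, ‖((T (ι x) : Z) : X) - ι (S x)‖ ≤ 2 * η * ‖ι x‖ := by
    intro x
    have h1 : ((T (ι x) : Z) : X) - ι (S x) = ∑ k ∈ x.support,
        x k • (((T (ι (Finsupp.single k 1)) : Z) : X) - ι (w k)) := by
      have h2 : x = ∑ k ∈ x.support, x k • (Finsupp.single k 1 : C00) := by
        conv_lhs => rw [← Finsupp.sum_single x]
        refine sum_congr rfl fun k _ => ?_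
        rw [Finsupp.smul_single, smul_eq_mul, mul_one]
      have h3 : ((T (ι x) : Z) : X) = ∑ k ∈ x.support,
          x k • ((T (ι (Finsupp.single k 1)) : Z) : X) := by
        conv_lhs => rw [h2]
        rw [map_sum, map_sum]
        simp only [map_smul]
        rw [Submodule.coe_sum]
        simp only [Submodule.coe_smul]
      rw [h3, hS, map_sum]
      simp only [map_smul]
      rw [← sum_sub_distrib]
      simp only [smul_sub]
    rw [h1]
    refine (norm_sum_le _ _).trans ?_
    refine (sum_le_sum (g := fun k : ℕ+ => ‖ι x‖ * η * (1 / 2) ^ (k : ℕ)) ?_).trans ?_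
    · intro k _
      rw [norm_smul, Real.norm_eq_abs, mul_assoc]
      exact mul_le_mul (abs_le_N hι x k) (hw k) (norm_nonneg _) (norm_nonneg _)
    · rw [← mul_sum]
      have := mul_le_mul_of_nonneg_left (sum_half_le x.support)
        (show 0 ≤ ‖ι x‖ * η by positivity)
      linarith
  refine no_sparse hι (S := S) hM (C := ‖(T : X →L[ℝ] Z)‖ + 2 * η) (δ := 1 / (2 * B))
    (by positivity) ?_ ?_
  · intro x
    have h1 := norm_sub_norm_le (ι (S x)) ((T (ι x) : Z) : X)
    rw [norm_sub_rev] at h1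
    have h2 := hdiff x
    have h3 := hupT (ι x)
    rw [add_mul]
    linarith
  · intro x
    have h1 := norm_sub_norm_le ((T (ι x) : Z) : X) (ι (S x))
    have h2 := hdiff x
    have h3 := hlowT (ι x)
    have h4 : 1 / B * ‖ι x‖ ≤ ‖((T (ι x) : Z) : X)‖ := by
      rw [one_div, inv_mul_le_iff₀ hBpos]
      exact h3
    have h5 : 1 / (2 * B) * ‖ι x‖ = 1 / B * ‖ι x‖ - 2 * η * ‖ι x‖ := by
      rw [hη]
      field_simp
      ring
    linarith

end Pool.MP4a3daa
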