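import Pool.Agent.Lib.MP_4a3daa_an.H90.Fam

namespace Pool.MP4a3daa

open Finset

/-- successive sets indexed by a finite set -/
def Succ (D : Finset ℕ) (F : ℕ → Finset ℕ+) : Prop :=
  ∀ p ∈ D, ∀ q ∈ D, p < q → Before (F p) (F q)

lemma sum_enum {U : Finset ℕ} {e : ℕ → ℕ}
    (h2 : ∀ i < U.card, ∀ i' < U.card, i < i' → e i < e i')
    (h3 : (range U.card).image e = U) (f : ℕ → ℝ) :
    ∑ u ∈ U, f u = ∑ i ∈ range U.card, f (e i) := by
  conv_lhs => rw [← h3]
  rw [sum_image]
  intro i hi i' hi' hh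
  have hi1 : i < U.card := mem_range.1 hi
  have hi2 : i' < U.card := mem_range.1 hi'
  rcases lt_trichotomy i i' with h | h | h
  · exact absurd hh (h2 i hi1 i' hi2 h).ne
  · exact h
  · exact absurd hh (h2 i' hi2 i hi1 h).ne'

section

variable {n : ℕ} {N : C00 → ℝ} (h : IsImplicitNorm n N)

include h

lemma N_zero : N 0 = 0 := by
  have := h.smul 0 0
  simpa using this

lemma abs_le_N (x : C00) (k : ℕ+) : |x k| ≤ N x :=
  (h.formula x).1 (Or.inl ⟨k, rfl⟩)

lemma N_nonneg (x : C00) : 0 ≤ N x := le_trans (abs_nonneg _) (abs_le_N h x 1)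

lemma N_neg (x : C00) : N (-x) = N x := by
  have := h.smul (-1) x
  simpa using this

lemma N_smul_nonneg {c : ℝ} (hc : 0 ≤ c) (x : C00) : N (c • x) = c * N x := by
  rw [h.smul, abs_of_nonneg hc]

lemma N_sum_le {ι : Type*} (s : Finset ι) (f : ι → C00) : N (∑ i ∈ s, f i) ≤ ∑ i ∈ s, N (f i) := by
  classical
  induction s using Finset.induction_on with
  | empty => simp [N_zero h]
  | insert a s ha ih =>
    rw [sum_insert ha, sum_insert ha]
    exact le_trans (h.add_le _ _) (by linarith)

/-- a crude `ℓ_1` bound -/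
lemma N_le_L1 (x : C00) : N x ≤ ∑ k ∈ x.support, N (Finsupp.single k (x k)) := by
  conv_lhs => rw [← Finsupp.sum_single x]
  exact N_sum_le h _ _

lemma sum_res_le_L1 {D : Finset ℕ} {F : ℕ → Finset ℕ+} (hF : Succ D F) (y : C00) :
    ∑ q ∈ D, N (res (F q) y) ≤ ∑ k ∈ y.support, N (Finsupp.single k (y k)) := by
  classical
  have h1 : ∀ q ∈ D, N (res (F q) y) ≤
      ∑ k ∈ y.support.filter (fun k => k ∈ F q), N (Finsupp.single k (y k)) := by
    intro q _
    refine le_trans (N_le_L1 h _) (le_of_eq ?_)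
    have hs : (res (F q) y).support = y.support.filter (fun k => k ∈ F q) := by
      ext k
      simp only [Finsupp.mem_support_iff, mem_filter, res_apply]
      split_ifs with hk <;> simp [hk]
    rw [hs]
    refine sum_congr rfl fun k hk => ?_
    rw [res_apply, if_pos (mem_filter.1 hk).2]
  refine le_trans (sum_le_sum h1) ?_
  rw [← sum_biUnion]
  · refine sum_le_sum_of_subset_of_nonneg ?_ (fun k _ _ => N_nonneg h _)
    intro k hk
    obtain ⟨q, _, hq⟩ := mem_biUnion.1 hk
    exact (mem_filter.1 hq).1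
  · intro p hp q hq hpq
    rw [Function.onFun, Finset.disjoint_left]
    intro k hk1 hk2
    have e1 := (mem_filter.1 hk1).2
    have e2 := (mem_filter.1 hk2).2
    rcases lt_or_gt_of_ne hpq with hlt | hlt
    · exact lt_irrefl _ (hF p hp q hq hlt k e1 k e2)
    · exact lt_irrefl _ (hF q hq p hp hlt k e2 k e1)

lemma avg_bdd (j : ℕ) (y : C00) : BddAbove {t : ℝ | ∃ (d : ℕ) (F : ℕ → Finset ℕ+), d ≤ j ∧
    (∀ p < d, ∀ q < d, p < q → Before (F p) (F q)) ∧
    t = (1 / (j : ℝ)) * ∑ q ∈ range d, N (res (F q) y)} := by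
  refine ⟨∑ k ∈ y.support, N (Finsupp.single k (y k)), ?_⟩
  rintro t ⟨d, F, _, hF, rfl⟩
  have h1 := sum_res_le_L1 h (D := range d) (F := F)
    (fun p hp q hq hpq => hF p (mem_range.1 hp) q (mem_range.1 hq) hpq) y
  have h0 : 0 ≤ ∑ q ∈ range d, N (res (F q) y) := sum_nonneg fun q _ => N_nonneg h _
  have h2 : (1 / (j : ℝ)) ≤ 1 := by
    rcases Nat.eq_zero_or_pos j with hj | hj
    · rw [hj]; norm_num
    · rw [div_le_one (by exact_mod_cast hj)]
      exact_mod_cast hj
  have h3 : (0 : ℝ) ≤ 1 / (j : ℝ) := by positivity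
  calc (1 / (j : ℝ)) * ∑ q ∈ range d, N (res (F q) y)
      ≤ 1 * ∑ q ∈ range d, N (res (F q) y) := mul_le_mul_of_nonneg_right h2 h0
    _ ≤ _ := by rw [one_mul]; exact h1

lemma le_av {j : ℕ} {y : C00} {D : Finset ℕ} {F : ℕ → Finset ℕ+} (hD : D.card ≤ j)
    (hF : Succ D F) : (1 / (j : ℝ)) * ∑ q ∈ D, N (res (F q) y) ≤ avgN N j y := by
  obtain ⟨e, he1, he2, he3⟩ := exists_enum D
  refine le_csSup (avg_bdd h j y) ⟨D.card, fun i => F (e i), hD, ?_, ?_⟩
  · intro p hp q hq hpq
    exact hF _ (he1 p hp) _ (he1 q hq) (he2 p hp q hq hpq)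
  · rw [sum_enum he2 he3 (fun q => N (res (F q) y))]

omit h in
lemma av_le {j : ℕ} {y : C00} {B : ℝ}
    (hB : ∀ (D : Finset ℕ) (F : ℕ → Finset ℕ+), D.card ≤ j → Succ D F →
      (1 / (j : ℝ)) * ∑ q ∈ D, N (res (F q) y) ≤ B) : avgN N j y ≤ B := by
  refine csSup_le ⟨_, 0, fun _ => ∅, Nat.zero_le _, by simp, rfl⟩ ?_
  rintro t ⟨d, F, hd, hF, rfl⟩
  refine hB (range d) F (by rw [card_range]; exact hd) ?_
  intro p hp q hq hpq
  exact hF p (mem_range.1 hp) q (mem_range.1 hq) hpq

lemma av_nonneg (j : ℕ) (y : C00) : 0 ≤ avgN N j y := by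
  have := le_av h (j := j) (y := y) (D := ∅) (F := fun _ => ∅) (by simp)
    (by intro p hp; simp at hp)
  simpa using this

lemma lower {I : Finset ℕ} {E : ℕ → Finset ℕ+} (hF : Fam I E) (hA : Adm n I E) (x : C00) :
    ∑ j ∈ I, avgN N j (res (E j) x) ≤ N x := by
  obtain ⟨e, he1, he2, he3⟩ := exists_enum I
  refine (h.formula x).1 (Or.inr ⟨I.card, fun i => E (e i), e, ?_, ?_⟩)
  · refine ⟨fun q hq => hF.ne _ (he1 q hq), fun p hp q hq hpq =>
      hF.bef _ (he1 p hp) _ (he1 q hq) (he2 p hp q hq hpq), ?_, fun q hq => hF.two _ (he1 q hq),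
      he2, fun p hp q hq hpq => hF.fast _ (he1 p hp) _ (he1 q hq) (he2 p hp q hq hpq)⟩
    rw [schreier_iff]
    have : (range I.card).image (fun q => mn (E (e q))) = I.image (mnE E) := by
      conv_rhs => rw [← he3]
      rw [image_image]
      rfl
    rw [this]
    exact hA
  · rw [sum_enum he2 he3 (fun j => avgN N j (res (E j) x))]

lemma upper {x : C00} {B : ℝ} (h1 : ∀ k, |x k| ≤ B)
    (h2 : ∀ (I : Finset ℕ) (E : ℕ → Finset ℕ+), Fam I E → Adm n I E →
      ∑ j ∈ I, avgN N j (res (E j) x) ≤ B) : N x ≤ B := by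
  classical
  refine (h.formula x).2 ?_
  rintro t (⟨k, rfl⟩ | ⟨d, E, j, hadm, rfl⟩)
  · exact h1 k
  · let inv : ℕ → ℕ := fun i => if hi : ∃ q, q < d ∧ j q = i then hi.choose else 0
    have hinj : ∀ p < d, ∀ q < d, j p = j q → p = q := by
      intro p hp q hq hpq
      rcases lt_trichotomy p q with hlt | hlt | hlt
      · exact absurd hpq (hadm.mono p hp q hq hlt).ne
      · exact hlt
      · exact absurd hpq (hadm.mono q hq p hp hlt).ne'
    have hinv : ∀ q < d, inv (j q) = q := by
      intro q hq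
      have hi : ∃ q', q' < d ∧ j q' = j q := ⟨q, hq, rfl⟩
      have : inv (j q) = hi.choose := by simp only [inv]; rw [dif_pos hi]
      rw [this]
      exact hinj _ hi.choose_spec.1 _ hq hi.choose_spec.2
    have hlt : ∀ p < d, ∀ q < d, j p < j q → p < q := by
      intro p hp q hq hpq
      by_contra hcon
      rcases Nat.eq_or_lt_of_le (not_lt.1 hcon) with he | hl
      · rw [he] at hpq; exact lt_irrefl _ hpq
      · exact absurd hpq (not_lt.2 (hadm.mono q hq p hp hl).le)
    have hFam : Fam ((range d).image j) (fun i => E (inv i)) := by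
      refine ⟨?_, ?_, ?_, ?_⟩
      · intro i hi
        obtain ⟨q, hq, rfl⟩ := mem_image.1 hi
        rw [hinv q (mem_range.1 hq)]
        exact hadm.nonempty q (mem_range.1 hq)
      · intro i hi i' hi' hii
        obtain ⟨q, hq, rfl⟩ := mem_image.1 hi
        obtain ⟨q', hq', rfl⟩ := mem_image.1 hi'
        rw [hinv q (mem_range.1 hq), hinv q' (mem_range.1 hq')]
        exact hadm.before q (mem_range.1 hq) q' (mem_range.1 hq')
          (hlt q (mem_range.1 hq) q' (mem_range.1 hq') hii)
      · intro i hi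
        obtain ⟨q, hq, rfl⟩ := mem_image.1 hi
        exact hadm.two_le q (mem_range.1 hq)
      · intro i hi i' hi' hii
        obtain ⟨q, hq, rfl⟩ := mem_image.1 hi
        obtain ⟨q', hq', rfl⟩ := mem_image.1 hi'
        rw [hinv q (mem_range.1 hq)]
        exact hadm.fast q (mem_range.1 hq) q' (mem_range.1 hq')
          (hlt q (mem_range.1 hq) q' (mem_range.1 hq') hii)
    have hAdm : Adm n ((range d).image j) (fun i => E (inv i)) := by
      unfold Adm
      have : ((range d).image j).image (mnE fun i => E (inv i)) =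
          (range d).image (fun q => mn (E q)) := by
        rw [image_image]
        refine image_congr ?_
        intro q hq
        simp only [Function.comp, mnE]
        rw [hinv q (mem_range.1 hq)]
      rw [this, ← schreier_iff]
      exact hadm.schreier
    have := h2 _ _ hFam hAdm
    rw [sum_image] at this
    · refine le_trans (le_of_eq ?_) this
      refine sum_congr rfl fun q hq => ?_
      rw [hinv q (mem_range.1 hq)]
    · intro p hp q hq hpq
      exact hinj p (mem_range.1 hp) q (mem_range.1 hq) hpq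

lemma av_zero (j : ℕ) : avgN N j (0 : C00) = 0 := by
  refine le_antisymm (av_le fun D F _ _ => ?_) (av_nonneg h _ _)
  simp [res_zero, N_zero h]

lemma N_res_le (F : Finset ℕ+) (x : C00) : N (res F x) ≤ N x := by
  classical
  refine upper h ?_ ?_
  · intro k
    rw [res_apply]
    split_ifs
    · exact abs_le_N h x k
    · simpa using N_nonneg h x
  · intro I E hFam hAdm
    have key : ∑ j ∈ I, avgN N j (res (E j) (res F x)) =
        ∑ j ∈ I.filter (fun j => (E j ∩ F).Nonempty), avgN N j (res (E j ∩ F) x) := by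
      rw [sum_filter]
      refine sum_congr rfl fun j _ => ?_
      rw [res_res]
      split_ifs with hne
      · rfl
      · rw [not_nonempty_iff_eq_empty.1 hne, res_empty, av_zero h]
    rw [key]
    rcases (I.filter (fun j => (E j ∩ F).Nonempty)).eq_empty_or_nonempty with he | hne
    · rw [he, sum_empty]; exact N_nonneg h x
    · exact lower h (hFam.sub (filter_subset _ _) (fun j _ => inter_subset_left)
        (fun j hj => (mem_filter.1 hj).2)) (hAdm.sub hFam (filter_subset _ _)
        (fun j _ => inter_subset_left) (fun j hj => (mem_filter.1 hj).2) hne) x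

lemma av_res_le (j : ℕ) (F : Finset ℕ+) (y : C00) : avgN N j (res F y) ≤ avgN N j y := by
  refine av_le fun D G hD hG => ?_
  refine le_trans ?_ (le_av h (y := y) hD hG)
  refine mul_le_mul_of_nonneg_left (sum_le_sum fun q _ => ?_) (by positivity)
  rw [res_comm]
  exact N_res_le h F _

lemma av_add_le (j : ℕ) (x y : C00) : avgN N j (x + y) ≤ avgN N j x + avgN N j y := by
  refine av_le fun D G hD hG => ?_
  have h1 := le_av h (y := x) hD hG
  have h2 := le_av h (y := y) hD hG
  have h3 : ∑ q ∈ D, N (res (G q) (x + y)) ≤ ∑ q ∈ D, N (res (G q) x) + ∑ q ∈ D, N (res (G q) y) := by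
    rw [← sum_add_distrib]
    exact sum_le_sum fun q _ => by rw [res_add]; exact h.add_le _ _
  have h4 : (0 : ℝ) ≤ 1 / (j : ℝ) := by positivity
  have := mul_le_mul_of_nonneg_left h3 h4
  linarith

lemma av_sum_le {ι : Type*} (j : ℕ) (s : Finset ι) (f : ι → C00) :
    avgN N j (∑ i ∈ s, f i) ≤ ∑ i ∈ s, avgN N j (f i) := by
  classical
  induction s using Finset.induction_on with
  | empty => simp [av_zero h]
  | insert a s ha ih =>
    rw [sum_insert ha, sum_insert ha]
    exact le_trans (av_add_le h _ _ _) (by linarith)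

lemma av_smul_le {c : ℝ} (hc : 0 ≤ c) (j : ℕ) (x : C00) : avgN N j (c • x) ≤ c * avgN N j x := by
  refine av_le fun D G hD hG => ?_
  have h1 := le_av h (y := x) hD hG
  have h3 : ∑ q ∈ D, N (res (G q) (c • x)) = c * ∑ q ∈ D, N (res (G q) x) := by
    rw [mul_sum]
    exact sum_congr rfl fun q _ => by rw [res_smul, N_smul_nonneg h hc]
  rw [h3]
  have := mul_le_mul_of_nonneg_left h1 hc
  linarith

lemma av_smul {c : ℝ} (hc : 0 < c) (j : ℕ) (x : C00) : avgN N j (c • x) = c * avgN N j x := by
  refine le_antisymm (av_smul_le h hc.le j x) ?_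
  have h1 := av_smul_le h (inv_nonneg.2 hc.le) j (c • x)
  rw [smul_smul, inv_mul_cancel₀ hc.ne', one_smul] at h1
  have := mul_le_mul_of_nonneg_left h1 hc.le
  rwa [← mul_assoc, mul_inv_cancel₀ hc.ne', one_mul] at this

lemma av_le_N (j : ℕ) (x : C00) : avgN N j x ≤ N x := by
  refine av_le fun D G hD _ => ?_
  have h1 : ∑ q ∈ D, N (res (G q) x) ≤ j * N x := by
    refine le_trans (sum_le_sum fun q _ => N_res_le h (G q) x) ?_
    rw [sum_const, nsmul_eq_mul]
    exact mul_le_mul_of_nonneg_right (by exact_mod_cast hD) (N_nonneg h x)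
  rcases Nat.eq_zero_or_pos j with hj | hj
  · subst hj; simp; exact N_nonneg h x
  · have hj' : (0 : ℝ) < j := by exact_mod_cast hj
    rw [one_div, inv_mul_le_iff₀ hj']
    exact h1

lemma av_single_le (j : ℕ) (k : ℕ+) (c : ℝ) :
    avgN N j (Finsupp.single k c) ≤ (1 / (j : ℝ)) * N (Finsupp.single k c) := by
  classical
  refine av_le fun D G _ hG => ?_
  refine mul_le_mul_of_nonneg_left ?_ (by positivity)
  have hz : ∀ q ∈ D, k ∉ G q → N (res (G q) (Finsupp.single k c)) = 0 := by
    intro q _ hk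
    rw [res_eq_zero, N_zero h]
    intro l hl
    rw [Finsupp.single_apply, if_neg]
    rintro rfl; exact hk hl
  by_cases hex : ∃ q ∈ D, k ∈ G q
  · obtain ⟨q, hq, hk⟩ := hex
    rw [sum_eq_single_of_mem q hq]
    · exact N_res_le h _ _
    · intro p hp hpq
      refine hz p hp fun hk' => ?_
      rcases lt_or_gt_of_ne hpq with hl | hl
      · exact lt_irrefl _ (hG p hp q hq hl k hk' k hk)
      · exact lt_irrefl _ (hG q hq p hp hl k hk k hk')
  · push Not at hex
    rw [sum_eq_zero fun q hq => hz q hq (hex q hq)]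
    exact N_nonneg h _

lemma fam_sum_single_le {I : Finset ℕ} {E : ℕ → Finset ℕ+} (hF : Fam I E) (k : ℕ+) (c : ℝ)
    {J : ℕ} (hJ : 1 ≤ J) (hIJ : ∀ j ∈ I, J ≤ j) :
    ∑ j ∈ I, avgN N j (res (E j) (Finsupp.single k c)) ≤
      (1 / (J : ℝ)) * N (Finsupp.single k c) := by
  classical
  have hz : ∀ j ∈ I, k ∉ E j → avgN N j (res (E j) (Finsupp.single k c)) = 0 := by
    intro j _ hk
    rw [res_eq_zero, av_zero h]
    intro l hl
    rw [Finsupp.single_apply, if_neg]
    rintro rfl; exact hk hl
  have hJ0 : (0 : ℝ) < J := by exact_mod_cast hJ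
  by_cases hex : ∃ j ∈ I, k ∈ E j
  · obtain ⟨j, hj, hk⟩ := hex
    rw [sum_eq_single_of_mem j hj]
    · refine le_trans (av_res_le h _ _ _) (le_trans (av_single_le h j k c) ?_)
      refine mul_le_mul_of_nonneg_right ?_ (N_nonneg h _)
      exact one_div_le_one_div_of_le hJ0 (by exact_mod_cast hIJ j hj)
    · intro i hi hij
      refine hz i hi fun hk' => ?_
      rcases lt_or_gt_of_ne hij with hl | hl
      · exact lt_irrefl _ (hF.bef i hi j hj hl k hk' k hk)
      · exact lt_irrefl _ (hF.bef j hj i hi hl k hk k hk')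
  · push Not at hex
    rw [sum_eq_zero fun j hj => hz j hj (hex j hj)]
    exact mul_nonneg (by positivity) (N_nonneg h _)

lemma N_single (k : ℕ+) (c : ℝ) : N (Finsupp.single k c) = |c| := by
  refine le_antisymm ?_ (by simpa using abs_le_N h (Finsupp.single k c) k)
  have hB : N (Finsupp.single k c) ≤ max |c| ((1 / 2) * N (Finsupp.single k c)) := by
    refine upper h ?_ ?_
    · intro l
      rw [Finsupp.single_apply]
      split_ifs
      · exact le_max_left _ _
      · simp
    · intro I E hF _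
      refine le_trans ?_ (le_max_right _ _)
      have := fam_sum_single_le h hF k c (J := 2) (by norm_num) hF.two
      simpa using this
  rcases le_max_iff.1 hB with h1 | h1
  · exact h1
  · have := N_nonneg h (Finsupp.single k c)
    have h2 : N (Finsupp.single k c) = 0 := by linarith
    rw [h2]; exact abs_nonneg c

end

end Pool.MP4a3daa
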