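import Pool.Agent.Lib.MP_4a3daa_an.H90.Defs

namespace Pool.MP4a3daa

open Finset

/-- enumeration of a finite set of naturals -/
lemma exists_enum (U : Finset ℕ) : ∃ e : ℕ → ℕ, (∀ i < U.card, e i ∈ U) ∧
    (∀ i < U.card, ∀ i' < U.card, i < i' → e i < e i') ∧ (range U.card).image e = U := by
  classical
  refine ⟨fun i => if h : i < U.card then U.orderEmbOfFin rfl ⟨i, h⟩ else 0, ?_, ?_, ?_⟩
  · intro i hi
    simp only [hi, dif_pos]
    exact Finset.orderEmbOfFin_mem U rfl ⟨i, hi⟩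
  · intro i hi i' hi' hlt
    simp only [hi, hi', dif_pos]
    exact (U.orderEmbOfFin rfl).strictMono (by simpa using hlt)
  · ext a
    simp only [mem_image, mem_range]
    constructor
    · rintro ⟨i, hi, rfl⟩
      simp only [hi, dif_pos]
      exact Finset.orderEmbOfFin_mem U rfl ⟨i, hi⟩
    · intro ha
      have : a ∈ Set.range (U.orderEmbOfFin rfl) := by
        rw [Finset.range_orderEmbOfFin]; exact ha
      obtain ⟨i, hi⟩ := this
      refine ⟨i, i.2, ?_⟩
      simp only [i.2, dif_pos]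
      exact hi

/-- Uniform recursive version of the Schreier families. -/
def Sch : ℕ → Finset ℕ+ → Prop
  | 0, F => ∃ m, F = {m}
  | k + 1, F => ∃ (U : Finset ℕ) (G : ℕ → Finset ℕ+), U.Nonempty ∧ (∀ u ∈ U, Sch k (G u)) ∧
      (∀ u ∈ U, ∀ w ∈ U, u < w → Before (G u) (G w)) ∧ F = U.biUnion G ∧
      ∀ a ∈ F, U.card ≤ (a : ℕ)

lemma Sch.nonempty : ∀ {k : ℕ} {F : Finset ℕ+}, Sch k F → F.Nonempty
  | 0, F, ⟨m, h⟩ => by rw [h]; exact singleton_nonempty m
  | k + 1, F, ⟨U, G, hU, hG, _, hF, _⟩ => by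
      obtain ⟨u, hu⟩ := hU
      obtain ⟨a, ha⟩ := (hG u hu).nonempty
      exact ⟨a, by rw [hF]; exact mem_biUnion.2 ⟨u, hu, ha⟩⟩

lemma sch_one_iff (F : Finset ℕ+) : Sch 1 F ↔ (F.Nonempty ∧ ∀ a ∈ F, F.card ≤ (a : ℕ)) := by
  classical
  constructor
  · rintro ⟨U, G, hU, hG, hb, hF, hc⟩
    refine ⟨Sch.nonempty (k := 1) ⟨U, G, hU, hG, hb, hF, hc⟩, fun a ha => le_trans ?_ (hc a ha)⟩
    rw [hF]
    refine le_trans card_biUnion_le ?_
    rw [card_eq_sum_ones]
    refine sum_le_sum fun u hu => ?_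
    obtain ⟨m, hm⟩ := hG u hu
    rw [hm]; simp
  · rintro ⟨hne, hc⟩
    refine ⟨F.image (fun a : ℕ+ => (a : ℕ)), fun u => F.filter (fun a => (a : ℕ) = u),
      hne.image _, ?_, ?_, ?_, ?_⟩
    · intro u hu
      obtain ⟨a, ha, rfl⟩ := mem_image.1 hu
      refine ⟨a, ?_⟩
      ext b
      simp only [mem_filter, mem_singleton]
      constructor
      · rintro ⟨_, hb⟩
        exact PNat.coe_injective hb
      · rintro rfl
        exact ⟨ha, rfl⟩
    · intro u _ w _ huw a ha b hb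
      rw [mem_filter] at ha hb
      rw [← PNat.coe_lt_coe, ha.2, hb.2]
      exact huw
    · ext b
      simp only [mem_biUnion, mem_image, mem_filter]
      constructor
      · intro hb
        exact ⟨b, ⟨b, hb, rfl⟩, hb, rfl⟩
      · rintro ⟨u, _, hb, _⟩
        exact hb
    · intro a ha
      rw [card_image_of_injective _ PNat.coe_injective]
      exact hc a ha

lemma schreier_iff : ∀ (k : ℕ) (F : Finset ℕ+), Schreier k F ↔ Sch k F
  | 0, F => Iff.rfl
  | 1, F => (sch_one_iff F).symm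
  | k + 2, F => by
      classical
      constructor
      · rintro ⟨r, G, hr, hG, hb, hF, hc⟩
        refine ⟨range r, G, ⟨0, mem_range.2 hr⟩, fun u hu => (schreier_iff (k + 1) _).1
          (hG u (mem_range.1 hu)), fun u hu w hw h => hb u (mem_range.1 hu) w (mem_range.1 hw) h,
          hF, fun a ha => by rw [card_range]; exact hc a ha⟩
      · rintro ⟨U, G, hU, hG, hb, hF, hc⟩
        obtain ⟨e, he1, he2, he3⟩ := exists_enum U
        refine ⟨U.card, fun i => G (e i), card_pos.2 hU, fun i hi =>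
          (schreier_iff (k + 1) _).2 (hG _ (he1 i hi)), fun i hi i' hi' h =>
          hb _ (he1 i hi) _ (he1 i' hi') (he2 i hi i' hi' h), ?_, hc⟩
        rw [hF]
        ext a
        simp only [mem_biUnion, mem_range]
        constructor
        · rintro ⟨u, hu, ha⟩
          rw [← he3] at hu
          obtain ⟨i, hi, rfl⟩ := mem_image.1 hu
          exact ⟨i, mem_range.1 hi, ha⟩
        · rintro ⟨i, hi, ha⟩
          exact ⟨e i, he1 i hi, ha⟩

/-- The Schreier families are hereditary and spreading. -/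
lemma Sch.spread : ∀ {k : ℕ} {I I' : Finset ℕ} {φ ψ : ℕ → ℕ+}, Sch k (I.image φ) →
    StrictMonoOn φ (I : Set ℕ) → I' ⊆ I → I'.Nonempty → StrictMonoOn ψ (I' : Set ℕ) →
    (∀ i ∈ I', φ i ≤ ψ i) → Sch k (I'.image ψ) := by
  classical
  intro k
  induction k with
  | zero =>
    intro I I' φ ψ h hφ hsub hne hψ hle
    obtain ⟨m, hm⟩ := h
    obtain ⟨i0, hi0⟩ := hne
    have hall : ∀ i ∈ I', i = i0 := by
      intro i hi
      have h1 : φ i = m := by
        have : φ i ∈ I.image φ := mem_image_of_mem _ (hsub hi)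
        rw [hm] at this; exact mem_singleton.1 this
      have h2 : φ i0 = m := by
        have : φ i0 ∈ I.image φ := mem_image_of_mem _ (hsub hi0)
        rw [hm] at this; exact mem_singleton.1 this
      exact hφ.injOn (hsub hi) (hsub hi0) (h1.trans h2.symm)
    refine ⟨ψ i0, ?_⟩
    ext b
    simp only [mem_image, mem_singleton]
    constructor
    · rintro ⟨i, hi, rfl⟩
      rw [hall i hi]
    · rintro rfl
      exact ⟨i0, hi0, rfl⟩
  | succ k ih =>
    intro I I' φ ψ h hφ hsub hne hψ hle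
    obtain ⟨U, G, hU, hG, hb, hF, hc⟩ := h
    have hGsub : ∀ u ∈ U, G u ⊆ I.image φ := fun u hu => by
      rw [hF]; exact subset_biUnion_of_mem G hu
    let Iu : ℕ → Finset ℕ := fun u => I.filter (fun i => φ i ∈ G u)
    let Iu' : ℕ → Finset ℕ := fun u => I'.filter (fun i => φ i ∈ G u)
    have hIu : ∀ u ∈ U, (Iu u).image φ = G u := by
      intro u hu
      ext b
      simp only [Iu, mem_image, mem_filter]
      constructor
      · rintro ⟨i, ⟨_, hi⟩, rfl⟩
        exact hi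
      · intro hb
        obtain ⟨i, hi, rfl⟩ := mem_image.1 (hGsub u hu hb)
        exact ⟨i, ⟨hi, hb⟩, rfl⟩
    refine ⟨U.filter (fun u => (Iu' u).Nonempty), fun u => (Iu' u).image ψ, ?_, ?_, ?_, ?_, ?_⟩
    · obtain ⟨i, hi⟩ := hne
      have : φ i ∈ U.biUnion G := by rw [← hF]; exact mem_image_of_mem _ (hsub hi)
      obtain ⟨u, hu, hiu⟩ := mem_biUnion.1 this
      exact ⟨u, mem_filter.2 ⟨hu, ⟨i, mem_filter.2 ⟨hi, hiu⟩⟩⟩⟩
    · intro u hu
      obtain ⟨hu, hne'⟩ := mem_filter.1 hu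
      refine ih (I := Iu u) (φ := φ) ?_ ?_ ?_ hne' ?_ ?_
      · rw [hIu u hu]; exact hG u hu
      · exact hφ.mono (by intro i hi; exact (mem_filter.1 hi).1)
      · intro i hi
        have := mem_filter.1 hi
        exact mem_filter.2 ⟨hsub this.1, this.2⟩
      · exact hψ.mono (by intro i hi; exact (mem_filter.1 hi).1)
      · intro i hi; exact hle i (mem_filter.1 hi).1
    · intro u hu w hw huw a ha b hb'
      obtain ⟨i, hi, rfl⟩ := mem_image.1 ha
      obtain ⟨i', hi', rfl⟩ := mem_image.1 hb'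
      obtain ⟨hi1, hi2⟩ := mem_filter.1 hi
      obtain ⟨hi'1, hi'2⟩ := mem_filter.1 hi'
      have hlt : φ i < φ i' := hb u (mem_filter.1 hu).1 w (mem_filter.1 hw).1 huw _ hi2 _ hi'2
      have : i < i' := (hφ.lt_iff_lt (hsub hi1) (hsub hi'1)).1 hlt
      exact hψ hi1 hi'1 this
    · ext b
      simp only [mem_image, mem_biUnion, mem_filter]
      constructor
      · rintro ⟨i, hi, rfl⟩
        have : φ i ∈ U.biUnion G := by rw [← hF]; exact mem_image_of_mem _ (hsub hi)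
        obtain ⟨u, hu, hiu⟩ := mem_biUnion.1 this
        exact ⟨u, ⟨hu, ⟨i, mem_filter.2 ⟨hi, hiu⟩⟩⟩, i, mem_filter.2 ⟨hi, hiu⟩, rfl⟩
      · rintro ⟨u, _, i, hi, rfl⟩
        exact ⟨i, (mem_filter.1 hi).1, rfl⟩
    · intro a ha
      obtain ⟨i, hi, rfl⟩ := mem_image.1 ha
      have h1 : U.card ≤ (φ i : ℕ) := hc _ (mem_image_of_mem _ (hsub hi))
      have h2 : (φ i : ℕ) ≤ (ψ i : ℕ) := hle i hi
      exact le_trans (card_filter_le _ _) (h1.trans h2)

/-- colouring version of being covered by at most `s` sets from `𝒮_k` -/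
def Cov (k s : ℕ) (I : Finset ℕ) (φ : ℕ → ℕ+) : Prop :=
  ∃ χ : ℕ → ℕ, (I.image χ).card ≤ s ∧ ∀ u ∈ I.image χ, Sch k ((I.filter (fun i => χ i = u)).image φ)

lemma Cov.spread {k s : ℕ} {I I' : Finset ℕ} {φ ψ : ℕ → ℕ+} (h : Cov k s I φ)
    (hφ : StrictMonoOn φ (I : Set ℕ)) (hsub : I' ⊆ I) (hψ : StrictMonoOn ψ (I' : Set ℕ))
    (hle : ∀ i ∈ I', φ i ≤ ψ i) : Cov k s I' ψ := by
  classical
  obtain ⟨χ, h1, h2⟩ := h
  refine ⟨χ, le_trans (card_le_card (image_subset_image hsub)) h1, fun u hu => ?_⟩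
  obtain ⟨i, hi, hiu⟩ := mem_image.1 hu
  refine (h2 u (image_subset_image hsub hu)).spread (hφ.mono ?_) ?_ ?_ (hψ.mono ?_) ?_
  · intro i hi; exact (mem_filter.1 hi).1
  · intro i hi
    exact mem_filter.2 ⟨hsub (mem_filter.1 hi).1, (mem_filter.1 hi).2⟩
  · exact ⟨i, mem_filter.2 ⟨hi, hiu⟩⟩
  · intro i hi; exact (mem_filter.1 hi).1
  · intro i hi; exact hle i (mem_filter.1 hi).1

lemma Cov.mono {k s s' : ℕ} {I : Finset ℕ} {φ : ℕ → ℕ+} (h : Cov k s I φ) (hs : s ≤ s') :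
    Cov k s' I φ := by
  obtain ⟨χ, h1, h2⟩ := h
  exact ⟨χ, h1.trans hs, h2⟩

/-- A set of `𝒮_{k+1}` is covered by `min` many sets of `𝒮_k`. -/
lemma Sch.cov {k : ℕ} {I : Finset ℕ} {φ : ℕ → ℕ+} (h : Sch (k + 1) (I.image φ))
    (hφ : StrictMonoOn φ (I : Set ℕ)) {i : ℕ} (hi : i ∈ I) : Cov k (φ i) I φ := by
  classical
  obtain ⟨U, G, hU, hG, hb, hF, hc⟩ := h
  have hex : ∀ j ∈ I, ∃ u ∈ U, φ j ∈ G u := by
    intro j hj
    have : φ j ∈ U.biUnion G := by rw [← hF]; exact mem_image_of_mem _ hj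
    simpa using mem_biUnion.1 this
  let χ : ℕ → ℕ := fun j => if hj : j ∈ I then (hex j hj).choose else 0
  have hχ : ∀ j ∈ I, χ j ∈ U ∧ φ j ∈ G (χ j) := by
    intro j hj
    simp only [χ, hj, dif_pos]
    exact (hex j hj).choose_spec
  refine ⟨χ, ?_, ?_⟩
  · refine le_trans (card_le_card (t := U) ?_) (hc _ (mem_image_of_mem _ hi))
    intro u hu
    obtain ⟨j, hj, rfl⟩ := mem_image.1 hu
    exact (hχ j hj).1
  · intro u hu
    obtain ⟨j, hj, rfl⟩ := mem_image.1 hu
    have hIu : (I.filter (fun i => φ i ∈ G (χ j))).image φ = G (χ j) := by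
      ext b
      simp only [mem_image, mem_filter]
      constructor
      · rintro ⟨i, ⟨_, hi⟩, rfl⟩
        exact hi
      · intro hb'
        have : b ∈ I.image φ := by rw [hF]; exact mem_biUnion.2 ⟨_, (hχ j hj).1, hb'⟩
        obtain ⟨i, hi, rfl⟩ := mem_image.1 this
        exact ⟨i, ⟨hi, hb'⟩, rfl⟩
    have hS : Sch k ((I.filter (fun i => φ i ∈ G (χ j))).image φ) := by
      rw [hIu]; exact hG _ (hχ j hj).1
    refine hS.spread (hφ.mono ?_) ?_ ?_ (hφ.mono ?_) (fun _ _ => le_rfl)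
    · intro i hi; exact (mem_filter.1 hi).1
    · intro i hi
      obtain ⟨h1, h2⟩ := mem_filter.1 hi
      exact mem_filter.2 ⟨h1, by rw [← h2]; exact (hχ i h1).2⟩
    · exact ⟨j, mem_filter.2 ⟨hj, rfl⟩⟩
    · intro i hi; exact (mem_filter.1 hi).1

/-- `𝒮_0`-coverings just bound the cardinality. -/
lemma Cov.card_le {s : ℕ} {I : Finset ℕ} {φ : ℕ → ℕ+} (h : Cov 0 s I φ)
    (hφ : StrictMonoOn φ (I : Set ℕ)) : I.card ≤ s := by
  classical
  obtain ⟨χ, h1, h2⟩ := h
  have : Set.InjOn χ (I : Set ℕ) := by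
    intro i hi i' hi' hh
    obtain ⟨m, hm⟩ := h2 (χ i) (mem_image_of_mem _ hi)
    have e1 : φ i = m := by
      have : φ i ∈ (I.filter (fun l => χ l = χ i)).image φ :=
        mem_image_of_mem _ (mem_filter.2 ⟨hi, rfl⟩)
      rw [hm] at this; exact mem_singleton.1 this
    have e2 : φ i' = m := by
      have : φ i' ∈ (I.filter (fun l => χ l = χ i)).image φ :=
        mem_image_of_mem _ (mem_filter.2 ⟨hi', hh.symm⟩)
      rw [hm] at this; exact mem_singleton.1 this
    exact hφ.injOn hi hi' (e1.trans e2.symm)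
  rw [← card_image_of_injOn this]
  exact h1

end Pool.MP4a3daa
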