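import Pool.Agent.Lib.MP_4a3daa_an.H90.Kernel
import Pool.Agent.Lib.MP_4a3daa_an.H90.Avg

namespace Pool.MP4a3daa

open Finset

/-- location of `x` and `S x` -/
structure Loc (S : C00 →ₗ[ℝ] C00) (c e : ℕ) (x : C00) : Prop where
  hx : ∀ k, x k ≠ 0 → c < (k : ℕ) ∧ (k : ℕ) ≤ e
  hS : ∀ k, S x k ≠ 0 → c < (k : ℕ) ∧ (k : ℕ) ≤ e

/-- a family in `(c, e]` which witnesses the value `ν` for `x` -/
structure Wit (N : C00 → ℝ) (ν : ℝ) (c e : ℕ) (x : C00) (I : Finset ℕ)
    (E : ℕ → Finset ℕ+) : Prop where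
  fam : Fam I E
  ne : I.Nonempty
  idx : ∀ j ∈ I, c < j ∧ j ≤ e
  loc : ∀ j ∈ I, ∀ a ∈ E j, c < (a : ℕ) ∧ (a : ℕ) ≤ e
  val : ν ≤ ∑ j ∈ I, avgN N j (res (E j) x)

/-- an atom -/
structure IsAtom (N : C00 → ℝ) (S : C00 →ₗ[ℝ] C00) (ν A : ℝ) (c e : ℕ) (x : C00) : Prop where
  loc : Loc S c e x
  bound : N (S x) ≤ A
  wit : ∃ I E, Wit N ν c e x I E ∧ I.card ≤ 2

/-- an average of level `m + 1` -/
structure IsAvg (N : C00 → ℝ) (S : C00 →ₗ[ℝ] C00) (n m : ℕ) (ν A κ : ℝ) (c e : ℕ) (x : C00) :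
    Prop where
  loc : Loc S c e x
  bound : N (S x) ≤ A
  pp : PP N n m (S x) A κ
  wit : ∃ I E, Wit N ν c e x I E ∧ Sch (m + 1) (I.image (mnE E))

lemma same_block {cl : ℕ → ℕ} (hcl : Monotone cl) {i i' k : ℕ} (h1 : cl i < k)
    (h2 : k ≤ cl (i + 1)) (h1' : cl i' < k) (h2' : k ≤ cl (i' + 1)) : i = i' := by
  rcases lt_trichotomy i i' with hl | hl | hl
  · have := hcl (show i + 1 ≤ i' from hl); omega
  · exact hl
  · have := hcl (show i' + 1 ≤ i from hl); omega

lemma chain {Pr : ℕ → ℕ → ℕ → C00 → Prop} (hP : ∀ i c, ∃ e x, c ≤ e ∧ Pr i c e x) (c0 : ℕ) :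
    ∃ (cl : ℕ → ℕ) (x : ℕ → C00), cl 0 = c0 ∧ Monotone cl ∧
      ∀ i, Pr i (cl i) (cl (i + 1)) (x i) := by
  choose eF xF hle hPr using hP
  let cl : ℕ → ℕ := fun i => Nat.rec c0 (fun i c => eF i c) i
  exact ⟨cl, fun i => xF i (cl i), rfl, monotone_nat_of_le_succ (fun i => hle i (cl i)),
    fun i => hPr i (cl i)⟩

lemma Wit.mono {N : C00 → ℝ} {ν : ℝ} {c c' e e' : ℕ} {x : C00} {I : Finset ℕ}
    {E : ℕ → Finset ℕ+} (h : Wit N ν c e x I E) (hc : c' ≤ c) (he : e ≤ e') :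
    Wit N ν c' e' x I E where
  fam := h.fam
  ne := h.ne
  idx := fun j hj => ⟨lt_of_le_of_lt hc (h.idx j hj).1, (h.idx j hj).2.trans he⟩
  loc := fun j hj a ha => ⟨lt_of_le_of_lt hc (h.loc j hj a ha).1, (h.loc j hj a ha).2.trans he⟩
  val := h.val

lemma Wit.le {N : C00 → ℝ} {ν : ℝ} {c e : ℕ} {x : C00} {I : Finset ℕ}
    {E : ℕ → Finset ℕ+} (h : Wit N ν c e x I E) : c ≤ e := by
  obtain ⟨j, hj⟩ := h.ne
  have := h.idx j hj
  omega

section

variable {S : C00 →ₗ[ℝ] C00}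

lemma Loc.avg {r : ℕ} {cl : ℕ → ℕ} (hcl : Monotone cl) {x : ℕ → C00} {c : ℕ} (hc : c ≤ cl 0)
    (hx : ∀ i < r, Loc S (cl i) (cl (i + 1)) (x i)) (a : ℝ) :
    Loc S c (cl r) (∑ i ∈ range r, a • x i) := by
  constructor
  · intro k hk
    rw [Finsupp.finsetSum_apply] at hk
    obtain ⟨i, hi, hik⟩ := exists_ne_zero_of_sum_ne_zero hk
    have hne : x i k ≠ 0 := by
      intro h0; apply hik; rw [Finsupp.smul_apply, h0, smul_zero]
    have hir := mem_range.1 hi
    obtain ⟨h1, h2⟩ := (hx i hir).hx k hne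
    have h3 := hcl (Nat.zero_le i)
    have h4 := hcl (show i + 1 ≤ r from hir)
    omega
  · intro k hk
    rw [map_sum, Finsupp.finsetSum_apply] at hk
    obtain ⟨i, hi, hik⟩ := exists_ne_zero_of_sum_ne_zero hk
    have hne : S (x i) k ≠ 0 := by
      intro h0; apply hik; rw [map_smul, Finsupp.smul_apply, h0, smul_zero]
    have hir := mem_range.1 hi
    obtain ⟨h1, h2⟩ := (hx i hir).hS k hne
    have h3 := hcl (Nat.zero_le i)
    have h4 := hcl (show i + 1 ≤ r from hir)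
    omega

end

section

variable {n : ℕ} {N : C00 → ℝ} (h : IsImplicitNorm n N)

include h

lemma N_avg_le {r : ℕ} (hr : 1 ≤ r) {z : ℕ → C00} {A : ℝ} (hz : ∀ i < r, N (z i) ≤ A) :
    N (∑ i ∈ range r, (1 / (r : ℝ)) • z i) ≤ A := by
  have hr0 : (0 : ℝ) < r := by exact_mod_cast hr
  refine (N_sum_le h _ _).trans ?_
  refine (sum_le_sum (g := fun _ => (1 / (r : ℝ)) * A) ?_).trans ?_
  · intro i hi
    rw [N_smul_nonneg h (by positivity)]
    exact mul_le_mul_of_nonneg_left (hz i (mem_range.1 hi)) (by positivity)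
  · rw [sum_const, card_range, nsmul_eq_mul]
    apply le_of_eq
    field_simp

lemma union_wit {ν : ℝ} {r : ℕ} (hr : 1 ≤ r) {cl : ℕ → ℕ} (hcl : Monotone cl)
    {x : ℕ → C00} {I : ℕ → Finset ℕ} {E : ℕ → ℕ → Finset ℕ+}
    (hw : ∀ i < r, Wit N ν (cl i) (cl (i + 1)) (x i) (I i) (E i))
    (hx : ∀ i < r, ∀ k, x i k ≠ 0 → cl i < (k : ℕ) ∧ (k : ℕ) ≤ cl (i + 1)) :
    ∃ E' : ℕ → Finset ℕ+,
      Wit N ν (cl 0) (cl r) (∑ i ∈ range r, (1 / (r : ℝ)) • x i) ((range r).biUnion I) E' ∧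
      ((range r).biUnion I).image (mnE E') =
        (range r).biUnion (fun i => (I i).image (mnE (E i))) := by
  classical
  have hr0 : (0 : ℝ) < r := by exact_mod_cast hr
  let E' : ℕ → Finset ℕ+ := fun j =>
    if hj : ∃ i, i < r ∧ j ∈ I i then E hj.choose j else ∅
  have hE' : ∀ i < r, ∀ j ∈ I i, E' j = E i j := by
    intro i hi j hj
    have hex : ∃ i, i < r ∧ j ∈ I i := ⟨i, hi, hj⟩
    have h1 : E' j = E hex.choose j := by simp only [E']; rw [dif_pos hex]
    have h2 : hex.choose = i := by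
      have a1 := (hw _ hex.choose_spec.1).idx j hex.choose_spec.2
      have a2 := (hw i hi).idx j hj
      exact same_block hcl a1.1 a1.2 a2.1 a2.2
    rw [h1, h2]
  have hfam : Fam ((range r).biUnion I) E' := by
    refine ⟨?_, ?_, ?_, ?_⟩
    · intro j hj
      obtain ⟨i, hi, hij⟩ := mem_biUnion.1 hj
      rw [hE' i (mem_range.1 hi) j hij]
      exact (hw i (mem_range.1 hi)).fam.ne j hij
    · intro j hj j' hj' hjj a ha b hb
      obtain ⟨i, hi, hij⟩ := mem_biUnion.1 hj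
      obtain ⟨i', hi', hij'⟩ := mem_biUnion.1 hj'
      rw [hE' i (mem_range.1 hi) j hij] at ha
      rw [hE' i' (mem_range.1 hi') j' hij'] at hb
      rcases lt_trichotomy i i' with hl | hl | hl
      · have a1 := (hw i (mem_range.1 hi)).loc j hij a ha
        have a2 := (hw i' (mem_range.1 hi')).loc j' hij' b hb
        have a3 := hcl (show i + 1 ≤ i' from hl)
        have : (a : ℕ) < (b : ℕ) := by omega
        exact this
      · subst hl
        exact (hw i (mem_range.1 hi)).fam.bef j hij j' hij' hjj a ha b hb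
      · have a1 := (hw i (mem_range.1 hi)).idx j hij
        have a2 := (hw i' (mem_range.1 hi')).idx j' hij'
        have a3 := hcl (show i' + 1 ≤ i from hl)
        omega
    · intro j hj
      obtain ⟨i, hi, hij⟩ := mem_biUnion.1 hj
      exact (hw i (mem_range.1 hi)).fam.two j hij
    · intro j hj j' hj' hjj a ha
      obtain ⟨i, hi, hij⟩ := mem_biUnion.1 hj
      obtain ⟨i', hi', hij'⟩ := mem_biUnion.1 hj'
      rw [hE' i (mem_range.1 hi) j hij] at ha
      rcases lt_trichotomy i i' with hl | hl | hl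
      · have a1 := (hw i (mem_range.1 hi)).loc j hij a ha
        have a2 := (hw i' (mem_range.1 hi')).idx j' hij'
        have a3 := hcl (show i + 1 ≤ i' from hl)
        omega
      · subst hl
        exact (hw i (mem_range.1 hi)).fam.fast j hij j' hij' hjj a ha
      · have a1 := (hw i (mem_range.1 hi)).idx j hij
        have a2 := (hw i' (mem_range.1 hi')).idx j' hij'
        have a3 := hcl (show i' + 1 ≤ i from hl)
        omega
  refine ⟨E', ⟨hfam, ?_, ?_, ?_, ?_⟩, ?_⟩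
  · obtain ⟨j, hj⟩ := (hw 0 (by omega)).ne
    exact ⟨j, mem_biUnion.2 ⟨0, mem_range.2 (by omega), hj⟩⟩
  · intro j hj
    obtain ⟨i, hi, hij⟩ := mem_biUnion.1 hj
    have hir := mem_range.1 hi
    have a1 := (hw i hir).idx j hij
    have a2 := hcl (Nat.zero_le i)
    have a3 := hcl (show i + 1 ≤ r from hir)
    omega
  · intro j hj a ha
    obtain ⟨i, hi, hij⟩ := mem_biUnion.1 hj
    have hir := mem_range.1 hi
    rw [hE' i hir j hij] at ha
    have a1 := (hw i hir).loc j hij a ha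
    have a2 := hcl (Nat.zero_le i)
    have a3 := hcl (show i + 1 ≤ r from hir)
    omega
  · have hres : ∀ i < r, ∀ j ∈ I i, res (E' j) (∑ i ∈ range r, (1 / (r : ℝ)) • x i) =
        (1 / (r : ℝ)) • res (E i j) (x i) := by
      intro i hi j hj
      rw [hE' i hi j hj, res_sum, sum_eq_single_of_mem i (mem_range.2 hi), res_smul]
      intro i' hi' hne
      refine res_eq_zero fun k hk => ?_
      by_contra hne0
      have hne1 : x i' k ≠ 0 := by
        intro h0; apply hne0; rw [Finsupp.smul_apply, h0, smul_zero]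
      have a1 := hx i' (mem_range.1 hi') k hne1
      have a2 := (hw i hi).loc j hj k hk
      exact hne (same_block hcl a1.1 a1.2 a2.1 a2.2)
    rw [sum_biUnion]
    · have e1 : ∀ i ∈ range r, (1 / (r : ℝ)) * ν ≤
          ∑ j ∈ I i, avgN N j (res (E' j) (∑ i ∈ range r, (1 / (r : ℝ)) • x i)) := by
        intro i hi
        have hir := mem_range.1 hi
        have e2 : ∑ j ∈ I i, avgN N j (res (E' j) (∑ i ∈ range r, (1 / (r : ℝ)) • x i)) =
            (1 / (r : ℝ)) * ∑ j ∈ I i, avgN N j (res (E i j) (x i)) := by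
          rw [mul_sum]
          refine sum_congr rfl fun j hj => ?_
          rw [hres i hir j hj, av_smul h (by positivity)]
        rw [e2]
        exact mul_le_mul_of_nonneg_left (hw i hir).val (by positivity)
      refine le_trans (le_of_eq ?_) (sum_le_sum e1)
      rw [sum_const, card_range, nsmul_eq_mul]
      field_simp
    · intro i hi i' hi' hne
      rw [Function.onFun, Finset.disjoint_left]
      intro j hj hj'
      have a1 := (hw i (mem_range.1 hi)).idx j hj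
      have a2 := (hw i' (mem_range.1 hi')).idx j hj'
      exact hne (same_block hcl a1.1 a1.2 a2.1 a2.2)
  · rw [biUnion_image]
    refine biUnion_congr rfl fun i hi => ?_
    refine image_congr fun j hj => ?_
    simp only [mnE]
    rw [hE' i (mem_range.1 hi) j hj]

/-- Averages of atoms. -/
lemma avg_zero {S : C00 →ₗ[ℝ] C00} {ν A : ℝ} (hA : 0 ≤ A)
    (H : ∀ c, ∃ e x, IsAtom N S ν A c e x) (c : ℕ) {κ : ℝ} (hκ : 0 < κ) :
    ∃ e x, IsAvg N S n 0 ν A κ c e x := by
  classical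
  obtain ⟨r0, hr0⟩ := exists_nat_gt (2 / κ)
  set r := r0 + 1 with hr
  have hr1 : 1 ≤ r := by omega
  have hrpos : (0 : ℝ) < r := by exact_mod_cast hr1
  have hrκ : 2 / (r : ℝ) ≤ κ := by
    rw [div_le_iff₀ hrpos]
    rw [div_lt_iff₀ hκ] at hr0
    have : (r : ℝ) = r0 + 1 := by rw [hr]; push_cast; ring
    rw [this]
    nlinarith
  obtain ⟨cl, x, hcl0, hcl, hat⟩ := chain (Pr := fun _ c e x => IsAtom N S ν A c e x)
    (by
      intro _ c
      obtain ⟨e, x, hx⟩ := H c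
      obtain ⟨I, E, hW, _⟩ := hx.wit
      exact ⟨e, x, hW.le, hx⟩) (max c (2 * r))
  have hwit := fun i => (hat i).wit
  choose I E hW hcard using hwit
  obtain ⟨E', hW', himg⟩ := union_wit h hr1 hcl (fun i _ => hW i) (fun i _ => (hat i).loc.hx)
  have hc0 : c ≤ cl 0 := by rw [hcl0]; exact le_max_left _ _
  have h2r : 2 * r ≤ cl 0 := by rw [hcl0]; exact le_max_right _ _
  refine ⟨cl r, ∑ i ∈ range r, (1 / (r : ℝ)) • x i, Loc.avg hcl hc0 (fun i _ => (hat i).loc) _,
    ?_, ?_, _, E', hW'.mono hc0 le_rfl, ?_⟩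
  · rw [map_sum]
    simp only [map_smul]
    exact N_avg_le h hr1 (fun i _ => (hat i).bound)
  · rw [map_sum]
    simp only [map_smul]
    refine PP_zero h hr1 hA (fun i _ => (hat i).bound) ?_ hrκ
    intro a _ b _ hab k hk k' hk'
    have a1 := (hat a).loc.hS k hk
    have a2 := (hat b).loc.hS k' hk'
    have a3 := hcl (show a + 1 ≤ b from hab)
    have : (k : ℕ) < (k' : ℕ) := by omega
    exact this
  · rw [zero_add, sch_one_iff]
    refine ⟨hW'.ne.image _, ?_⟩
    intro a ha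
    obtain ⟨j, hj, rfl⟩ := mem_image.1 ha
    have a1 := hW'.loc j hj _ (mn_mem (hW'.fam.ne j hj))
    have a2 : (((range r).biUnion I).image (mnE E')).card ≤ 2 * r := by
      refine card_image_le.trans (card_biUnion_le.trans ?_)
      refine (sum_le_sum (g := fun _ => 2) (fun i _ => hcard i)).trans ?_
      rw [sum_const, card_range, smul_eq_mul]
      omega
    have a3 : (mnE E' j : ℕ+) = mn (E' j) := rfl
    rw [a3]
    omega

/-- Averages of averages. -/
lemma avg_succ {S : C00 →ₗ[ℝ] C00} {ν A : ℝ} (hA : 0 ≤ A) {m : ℕ}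
    (H : ∀ c, ∀ κ : ℝ, 0 < κ → ∃ e x, IsAvg N S n m ν A κ c e x) (c : ℕ) {κ : ℝ} (hκ : 0 < κ) :
    ∃ e x, IsAvg N S n (m + 1) ν A κ c e x := by
  classical
  obtain ⟨r0, hr0⟩ := exists_nat_gt (2 / κ)
  set r := r0 + 1 with hr
  have hr1 : 1 ≤ r := by omega
  have hrpos : (0 : ℝ) < r := by exact_mod_cast hr1
  have hrκ : 2 / (r : ℝ) ≤ κ := by
    rw [div_le_iff₀ hrpos]
    rw [div_lt_iff₀ hκ] at hr0
    have : (r : ℝ) = r0 + 1 := by rw [hr]; push_cast; ring
    rw [this]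
    nlinarith
  obtain ⟨cl, x, hcl0, hcl, hat⟩ := chain
    (Pr := fun _ c e x => IsAvg N S n m ν A (1 / (r * (c + 1))) c e x)
    (by
      intro _ c
      obtain ⟨e, x, hx⟩ := H c (1 / (r * (c + 1))) (by positivity)
      obtain ⟨I, E, hW, _⟩ := hx.wit
      exact ⟨e, x, hW.le, hx⟩) (max c r)
  have hwit := fun i => (hat i).wit
  choose I E hW hsch using hwit
  obtain ⟨E', hW', himg⟩ := union_wit h hr1 hcl (fun i _ => hW i) (fun i _ => (hat i).loc.hx)
  have hc0 : c ≤ cl 0 := by rw [hcl0]; exact le_max_left _ _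
  have h2r : r ≤ cl 0 := by rw [hcl0]; exact le_max_right _ _
  refine ⟨cl r, ∑ i ∈ range r, (1 / (r : ℝ)) • x i, Loc.avg hcl hc0 (fun i _ => (hat i).loc) _,
    ?_, ?_, _, E', hW'.mono hc0 le_rfl, ?_⟩
  · rw [map_sum]
    simp only [map_smul]
    exact N_avg_le h hr1 (fun i _ => (hat i).bound)
  · rw [map_sum]
    simp only [map_smul]
    refine PP_succ h (k := m) (Z := fun i => S (x i)) (y := fun i => cl (i + 1)) hr1 hA
      (fun i _ => (hat i).bound) (fun i _ k hk => ((hat i).loc.hS k hk).2)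
      (fun i j hij => hcl (by omega)) (fun i _ => (hat i).pp) ?_ hrκ
    intro i _ hi1
    have : i - 1 + 1 = i := by omega
    simp only [this]
    have hc : (0 : ℝ) ≤ cl i := by positivity
    rw [div_mul_eq_mul_div, one_mul, div_le_div_iff₀ (by positivity) hrpos]
    nlinarith
  · rw [himg]
    refine ⟨range r, fun i => (I i).image (mnE (E i)), ⟨0, mem_range.2 (by omega)⟩,
      fun i _ => hsch i, ?_, rfl, ?_⟩
    · intro i _ i' _ hii a ha b hb
      obtain ⟨j, hj, rfl⟩ := mem_image.1 ha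
      obtain ⟨j', hj', rfl⟩ := mem_image.1 hb
      have a1 := (hW i).loc j hj _ (mn_mem ((hW i).fam.ne j hj))
      have a2 := (hW i').loc j' hj' _ (mn_mem ((hW i').fam.ne j' hj'))
      have a3 := hcl (show i + 1 ≤ i' from hii)
      have : ((mnE (E i) j : ℕ+) : ℕ) < ((mnE (E i') j' : ℕ+) : ℕ) := by
        simp only [mnE]; omega
      exact this
    · intro a ha
      obtain ⟨i, hi, hia⟩ := mem_biUnion.1 ha
      obtain ⟨j, hj, rfl⟩ := mem_image.1 hia
      have a1 := (hW i).loc j hj _ (mn_mem ((hW i).fam.ne j hj))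
      have a2 := hcl (Nat.zero_le i)
      rw [card_range]
      simp only [mnE]
      omega

lemma avg_all {S : C00 →ₗ[ℝ] C00} {ν A : ℝ} (hA : 0 ≤ A)
    (H : ∀ c, ∃ e x, IsAtom N S ν A c e x) (m : ℕ) :
    ∀ c, ∀ κ : ℝ, 0 < κ → ∃ e x, IsAvg N S n m ν A κ c e x := by
  induction m with
  | zero => exact fun c κ hκ => avg_zero h hA H c hκ
  | succ m ih => exact fun c κ hκ => avg_succ h hA ih c hκ

end

end Pool.MP4a3daa
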