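import Pool.Agent.Lib.MP_4a3daa_an.H90.Norm

namespace Pool.MP4a3daa

open Finset

lemma res_support_ssubset {F : Finset ℕ+} {x : C00} (hF : ¬ x.support ⊆ F) :
    (res F x).support ⊂ x.support := by
  refine ⟨?_, ?_⟩
  · intro k hk
    rw [Finsupp.mem_support_iff, res_apply] at hk
    rw [Finsupp.mem_support_iff]
    intro h0
    apply hk
    rw [h0, ite_self]
  · intro hsub
    apply hF
    intro k hk
    have := hsub hk
    rw [Finsupp.mem_support_iff, res_apply] at this
    by_contra hkF
    exact this (if_neg hkF)

lemma norm_le_of_implicit {n : ℕ} {N N' : C00 → ℝ} (h : IsImplicitNorm n N)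
    (h' : IsImplicitNorm n N') : ∀ (G : Finset ℕ+) (x : C00), x.support = G → N x ≤ N' x := by
  classical
  intro G
  induction G using Finset.strongInduction with
  | H G ih =>
    intro x hx
    have ih' : ∀ y : C00, y.support ⊂ x.support → N y ≤ N' y := by
      intro y hy
      exact ih _ (by rw [← hx]; exact hy) y rfl
    have key : N x ≤ max (N' x) ((1 / 2) * N x) := by
      refine upper h (fun k => (abs_le_N h' x k).trans (le_max_left _ _)) ?_
      intro I E hF hA
      by_cases hex : ∃ j0 ∈ I, x.support ⊆ E j0
      · obtain ⟨j0, hj0, hsub⟩ := hex
        rw [sum_eq_single_of_mem j0 hj0]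
        · rw [res_eq_self (fun k hk => hsub (Finsupp.mem_support_iff.2 hk))]
          refine av_le fun D F hD hS => ?_
          by_cases hex2 : ∃ t0 ∈ D, x.support ⊆ F t0
          · obtain ⟨t0, ht0, hsub2⟩ := hex2
            refine le_trans ?_ (le_max_right _ _)
            rw [sum_eq_single_of_mem t0 ht0]
            · rw [res_eq_self (fun k hk => hsub2 (Finsupp.mem_support_iff.2 hk))]
              refine mul_le_mul_of_nonneg_right ?_ (N_nonneg h x)
              exact one_div_le_one_div_of_le (by norm_num) (by exact_mod_cast hF.two j0 hj0)
            · intro t ht hne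
              rw [res_eq_zero, N_zero h]
              intro k hk
              by_contra hxk
              have hk0 := hsub2 (Finsupp.mem_support_iff.2 hxk)
              rcases lt_or_gt_of_ne hne with hl | hl
              · exact lt_irrefl _ (hS t ht t0 ht0 hl k hk k hk0)
              · exact lt_irrefl _ (hS t0 ht0 t ht hl k hk0 k hk)
          · push Not at hex2
            refine le_trans ?_ (le_max_left _ _)
            refine le_trans ?_ ((le_av h' hD hS).trans (av_le_N h' j0 x))
            refine mul_le_mul_of_nonneg_left (sum_le_sum fun t ht => ?_) (by positivity)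
            exact ih' _ (res_support_ssubset (hex2 t ht))
        · intro j hj hne
          rw [res_eq_zero, av_zero h]
          intro k hk
          by_contra hxk
          have hk0 := hsub (Finsupp.mem_support_iff.2 hxk)
          rcases lt_or_gt_of_ne hne with hl | hl
          · exact lt_irrefl _ (hF.bef j hj j0 hj0 hl k hk k hk0)
          · exact lt_irrefl _ (hF.bef j0 hj0 j hj hl k hk0 k hk)
      · push Not at hex
        refine le_trans ?_ (le_max_left _ _)
        refine le_trans (sum_le_sum fun j hj => ?_) (lower h' hF hA x)
        refine av_le fun D F hD hS => ?_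
        refine le_trans ?_ (le_av h' hD hS)
        refine mul_le_mul_of_nonneg_left (sum_le_sum fun t _ => ?_) (by positivity)
        refine ih' _ ?_
        rw [res_res]
        exact res_support_ssubset (fun hsub => hex j hj (hsub.trans inter_subset_right))
    rcases le_max_iff.1 key with h1 | h1
    · exact h1
    · have h2 := N_nonneg h x
      have h3 : N x = 0 := by linarith
      rw [h3]
      exact N_nonneg h' x

theorem unique_norm {n : ℕ} {N N' : C00 → ℝ} (h : IsImplicitNorm n N)
    (h' : IsImplicitNorm n N') : N = N' := by
  ext x
  exact le_antisymm (norm_le_of_implicit h h' _ x rfl) (norm_le_of_implicit h' h _ x rfl)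

end Pool.MP4a3daa
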